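import Pool.Agent.Helper1.Cyc.Poly

set_option autoImplicit false

/-!
Positions, and the eventual certificates.
-/

namespace Pool.Agent.Helper1.Cyc

open Set Filter Topology Real

noncomputable section

/-- local coordinates -/
def loc (δ a : ℝ) : ℝ × ℝ := (1 + δ ^ 2 * a ^ 2, δ * a)

/-- position of a point with coordinate `a` of track `i` -/
def P (m : ℕ) (i : ZMod m) (δ a : ℝ) : ℝ × ℝ := R m i (loc δ a)

lemma loc_cont (a : ℝ) : Continuous fun δ => loc δ a := by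
  unfold loc; fun_prop

lemma loc_zero (a : ℝ) : loc 0 a = (1, 0) := by simp [loc]

lemma P_cont (m : ℕ) (i : ZMod m) (a : ℝ) : Continuous fun δ => P m i δ a :=
  (R_cont m i).comp (loc_cont a)

lemma P_zero (m : ℕ) (i : ZMod m) (a : ℝ) : P m i 0 a = C m i := by
  unfold P C
  rw [loc_zero]

lemma P_succ {m : ℕ} (hm : 3 ≤ m) (i : ZMod m) (δ a : ℝ) :
    P m (i + 1) δ a = R m i (R m 1 (loc δ a)) := by
  unfold P
  rw [R_add hm]

lemma cr_cont' {f g : ℝ → ℝ × ℝ} (hf : Continuous f) (hg : Continuous g) :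
    Continuous fun z => cr (f z) (g z) := by
  unfold cr; fun_prop

lemma dt_cont' {f g : ℝ → ℝ × ℝ} (hf : Continuous f) (hg : Continuous g) :
    Continuous fun z => dt (f z) (g z) := by
  unfold dt; fun_prop

lemma cr_smul_right (p q : ℝ × ℝ) (a : ℝ) : cr p (a • q) = a * cr p q := by
  simp only [cr, Prod.smul_fst, Prod.smul_snd, smul_eq_mul]; ring

theorem ev_lt {f g : ℝ → ℝ} (hf : Continuous f) (hg : Continuous g) (h0 : f 0 < g 0) :
    ∀ᶠ δ in 𝓝[>] (0 : ℝ), f δ < g δ := by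
  have h1 : Tendsto f (𝓝[>] (0 : ℝ)) (𝓝 (f 0)) := (hf.tendsto 0).mono_left nhdsWithin_le_nhds
  have h2 : Tendsto g (𝓝[>] (0 : ℝ)) (𝓝 (g 0)) := (hg.tendsto 0).mono_left nhdsWithin_le_nhds
  exact h1.eventually_lt h2 h0

theorem ev_mul {g : ℝ → ℝ} (hg : Continuous g) (h0 : g 0 < 0) :
    ∀ᶠ δ in 𝓝[>] (0 : ℝ), δ * g δ < 0 := by
  filter_upwards [ev_lt hg continuous_const h0, eventually_mem_nhdsWithin] with δ h1 h2
  exact mul_neg_of_pos_of_neg h2 h1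

theorem ev_mulp {g : ℝ → ℝ} (hg : Continuous g) (h0 : 0 < g 0) :
    ∀ᶠ δ in 𝓝[>] (0 : ℝ), 0 < δ * g δ := by
  filter_upwards [ev_lt continuous_const hg h0, eventually_mem_nhdsWithin] with δ h1 h2
  exact mul_pos h2 h1

theorem ev_Ioo : ∀ᶠ δ in 𝓝[>] (0 : ℝ), 0 < δ ∧ δ < 1 :=
  Filter.eventually_of_mem (Ioo_mem_nhdsGT one_pos) fun _ h => h

lemma cr_loc (δ a b : ℝ) : cr (loc δ a) (loc δ b) = δ * (b - a) * (1 - δ ^ 2 * (a * b)) := by
  simp only [cr, loc]; ring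

lemma cr_same {m : ℕ} (i : ZMod m) {δ a b : ℝ} (h0 : 0 < δ) (h1 : δ < 1) (ha : 0 < a)
    (ha1 : a ≤ 1) (hb1 : b ≤ 1) (hab : a ≤ b) : 0 ≤ cr (P m i δ a) (P m i δ b) := by
  unfold P
  rw [cr_R, cr_loc]
  have k1 : a * b ≤ 1 := mul_le_one₀ ha1 (by linarith) hb1
  have k2 : δ ^ 2 ≤ 1 := by nlinarith
  have k3 : δ ^ 2 * (a * b) ≤ 1 := mul_le_one₀ k2 (by nlinarith) k1
  exact mul_nonneg (mul_nonneg h0.le (by linarith)) (by linarith)

lemma cr_same_lt {m : ℕ} (i : ZMod m) {δ a b : ℝ} (h0 : 0 < δ) (h1 : δ < 1) (ha : 0 < a)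
    (ha1 : a ≤ 1) (hb1 : b ≤ 1) (hab : a < b) : cr (P m i δ b) (P m i δ a) < 0 := by
  unfold P
  rw [cr_R, cr_loc]
  have k1 : b * a ≤ 1 := mul_le_one₀ hb1 (by linarith) ha1
  have k2 : δ ^ 2 < 1 := by nlinarith
  have k3 : δ ^ 2 * (b * a) < 1 := by nlinarith [mul_pos (lt_trans ha hab) ha]
  have k4 : 0 < δ * (b - a) * (1 - δ ^ 2 * (b * a)) :=
    mul_pos (mul_pos h0 (by linarith)) (by linarith)
  have e : δ * (a - b) * (1 - δ ^ 2 * (b * a)) = -(δ * (b - a) * (1 - δ ^ 2 * (b * a))) := by ring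
  linarith

lemma ev_next {m : ℕ} (hm : 3 ≤ m) (i : ZMod m) (a b : ℝ) :
    ∀ᶠ δ in 𝓝[>] (0 : ℝ), 0 < cr (P m i δ a) (P m (i + 1) δ b) := by
  apply ev_lt continuous_const (cr_cont' (P_cont m i a) (P_cont m (i + 1) b))
  rw [P_succ hm]
  unfold P
  rw [cr_R, loc_zero, loc_zero, R_one hm]
  simp only [cr]
  have := sin_ph_pos hm
  simp only [mul_zero, mul_one, add_zero, sub_zero, one_mul, zero_mul]
  exact this

/-- direction of the difference of two points of a track -/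
def df (δ a u : ℝ) : ℝ × ℝ := (δ * (a ^ 2 - u ^ 2), a - u)

lemma df_cont (a u : ℝ) : Continuous fun δ => df δ a u := by
  unfold df; fun_prop

lemma loc_sub (δ a u : ℝ) : loc δ a - loc δ u = δ • df δ a u := by
  ext
  · simp only [loc, df, Prod.fst_sub, Prod.smul_fst, smul_eq_mul]; ring
  · simp only [loc, df, Prod.snd_sub, Prod.smul_snd, smul_eq_mul]; ring

lemma P_sub (m : ℕ) (i : ZMod m) (δ a u : ℝ) : P m i δ a - P m i δ u = δ • R m i (df δ a u) := by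
  unfold P
  rw [← R_sub, loc_sub, R_smul]

lemma g_next {m : ℕ} (hm : 3 ≤ m) (i : ZMod m) (b u : ℝ) (w : ℝ × ℝ) (hw : w.1 = 0) :
    cr (P m (i + 1) 0 b - P m i 0 u) (R m i w) = (cos (ph m) - 1) * w.2 := by
  rw [P_succ hm]
  unfold P
  rw [← R_sub, cr_R, loc_zero, loc_zero, R_one hm]
  simp only [cr, Prod.fst_sub, Prod.snd_sub, hw]
  ring

lemma g_prev {m : ℕ} (hm : 3 ≤ m) (i : ZMod m) (b u : ℝ) (w : ℝ × ℝ) (hw : w.1 = 0) :
    cr (P m (i + 1) 0 b - P m i 0 u) (R m (i + 1) w) = (1 - cos (ph m)) * w.2 := by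
  rw [P_succ hm, R_add hm i 1 w]
  unfold P
  rw [← R_sub, cr_R, loc_zero, loc_zero, R_one hm, R_one hm]
  simp only [cr, Prod.fst_sub, Prod.snd_sub, hw]
  have := sin_sq_add_cos_sq (ph m)
  linear_combination w.2 * this

/-- `Q3` -/
lemma ev_below {m : ℕ} (hm : 3 ≤ m) (i : ZMod m) {a u : ℝ} (b : ℝ) (h : u < a) :
    ∀ᶠ δ in 𝓝[>] (0 : ℝ), cr (P m (i + 1) δ b - P m i δ u) (P m i δ a - P m i δ u) < 0 := by
  have e : ∀ δ, cr (P m (i + 1) δ b - P m i δ u) (P m i δ a - P m i δ u) =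
      δ * cr (P m (i + 1) δ b - P m i δ u) (R m i (df δ a u)) := by
    intro δ
    rw [P_sub, cr_smul_right]
  simp only [e]
  apply ev_mul (cr_cont' ((P_cont m (i + 1) b).sub (P_cont m i u))
    ((R_cont m i).comp (df_cont a u)))
  change cr (P m (i + 1) 0 b - P m i 0 u) (R m i (df 0 a u)) < 0
  rw [g_next hm _ _ _ _ (by simp [df])]
  have := cos_ph_lt hm
  exact mul_neg_of_neg_of_pos (by linarith) (by simp only [df]; linarith)

/-- `Q4` -/
lemma ev_above {m : ℕ} (hm : 3 ≤ m) (i : ZMod m) {a u : ℝ} (b : ℝ) (h : a < u) :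
    ∀ᶠ δ in 𝓝[>] (0 : ℝ),
      cr (P m (i + 1) δ u - P m i δ b) (P m (i + 1) δ a - P m (i + 1) δ u) < 0 := by
  have e : ∀ δ, cr (P m (i + 1) δ u - P m i δ b) (P m (i + 1) δ a - P m (i + 1) δ u) =
      δ * cr (P m (i + 1) δ u - P m i δ b) (R m (i + 1) (df δ a u)) := by
    intro δ
    rw [P_sub, cr_smul_right]
  simp only [e]
  apply ev_mul (cr_cont' ((P_cont m (i + 1) u).sub (P_cont m i b))
    ((R_cont m (i + 1)).comp (df_cont a u)))
  change cr (P m (i + 1) 0 u - P m i 0 b) (R m (i + 1) (df 0 a u)) < 0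
  rw [g_prev hm _ _ _ _ (by simp [df])]
  have := cos_ph_lt hm
  exact mul_neg_of_pos_of_neg (by linarith) (by simp only [df]; linarith)

/-- `Q5` -/
lemma ev_far {m : ℕ} (hm : 3 ≤ m) {i j : ZMod m} (h : j ≠ i) (a b : ℝ) :
    ∀ᶠ δ in 𝓝[>] (0 : ℝ), dt (C m i) (P m j δ b) < dt (C m i) (P m i δ a) := by
  apply ev_lt (dt_cont' continuous_const (P_cont m j b)) (dt_cont' continuous_const (P_cont m i a))
  rw [P_zero, P_zero, C_self]
  exact C_lt hm (Ne.symm h)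

lemma ev_pos' {m : ℕ} (i : ZMod m) (a : ℝ) :
    ∀ᶠ δ in 𝓝[>] (0 : ℝ), 0 < dt (C m i) (P m i δ a) := by
  apply ev_lt continuous_const (dt_cont' continuous_const (P_cont m i a))
  rw [P_zero, C_self]
  exact one_pos

/-! ### the point of a chord inside a track -/

/-- local coordinates of the point -/
def lm (δ c d : ℝ) : ℝ × ℝ := (1 + δ ^ 2 * (2 * c ^ 2 + c * d), δ * (2 * c))

/-- the point -/
def Mi (m : ℕ) (i : ZMod m) (δ c d : ℝ) : ℝ × ℝ := R m i (lm δ c d)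

lemma lm_cont (c d : ℝ) : Continuous fun δ => lm δ c d := by
  unfold lm; fun_prop

lemma Mi_cont (m : ℕ) (i : ZMod m) (c d : ℝ) : Continuous fun δ => Mi m i δ c d :=
  (R_cont m i).comp (lm_cont c d)

lemma Mi_zero (m : ℕ) (i : ZMod m) (c d : ℝ) : Mi m i 0 c d = C m i := by
  unfold Mi C lm
  congr 1
  simp

lemma Mi_mem (m : ℕ) (i : ZMod m) {c d : ℝ} (δ : ℝ) (hc : 0 < c) (hd : 8 * c ≤ d) :
    Mi m i δ c d ∈ segment ℝ (P m i δ c) (P m i δ d) := by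
  have h0 : 0 < d - c := by linarith
  refine ⟨1 - c / (d - c), c / (d - c), ?_, (div_pos hc h0).le, by ring, ?_⟩
  · rw [sub_nonneg, div_le_one h0]; linarith
  · unfold P Mi
    rw [← R_smul, ← R_smul, ← R_padd]
    congr 1
    ext
    · simp only [loc, lm, Prod.fst_add, Prod.smul_fst, smul_eq_mul]
      field_simp
      ring
    · simp only [loc, lm, Prod.snd_add, Prod.smul_snd, smul_eq_mul]
      field_simp
      ring

lemma cr_loc_lm (δ a c d : ℝ) : cr (loc δ a) (lm δ c d) =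
    δ * ((2 * c - a) + δ ^ 2 * (a ^ 2 * (2 * c) - (2 * c ^ 2 + c * d) * a)) := by
  simp only [cr, loc, lm]; ring

lemma ev_lm_lt {m : ℕ} (i : ZMod m) {a c : ℝ} (d : ℝ) (h : 2 * c < a) :
    ∀ᶠ δ in 𝓝[>] (0 : ℝ), cr (P m i δ a) (Mi m i δ c d) < 0 := by
  unfold P Mi
  simp only [cr_R, cr_loc_lm]
  apply ev_mul (by fun_prop)
  simp only [ne_eq, OfNat.ofNat_ne_zero, not_false_eq_true, zero_pow, zero_mul, add_zero]
  linarith

lemma ev_lm_gt {m : ℕ} (i : ZMod m) {a c : ℝ} (d : ℝ) (h : a < 2 * c) :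
    ∀ᶠ δ in 𝓝[>] (0 : ℝ), cr (Mi m i δ c d) (P m i δ a) < 0 := by
  unfold P Mi
  have e : ∀ δ, cr (R m i (lm δ c d)) (R m i (loc δ a)) =
      δ * (-((2 * c - a) + δ ^ 2 * (a ^ 2 * (2 * c) - (2 * c ^ 2 + c * d) * a))) := by
    intro δ
    rw [cr_R]
    simp only [cr, loc, lm]; ring
  simp only [e]
  apply ev_mul (by fun_prop)
  simp only [ne_eq, OfNat.ofNat_ne_zero, not_false_eq_true, zero_pow, zero_mul, add_zero]
  linarith

/-- direction from `P` to `Mi` -/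
def dm (δ c d a : ℝ) : ℝ × ℝ := (δ * (2 * c ^ 2 + c * d - a ^ 2), 2 * c - a)

lemma dm_cont (c d a : ℝ) : Continuous fun δ => dm δ c d a := by
  unfold dm; fun_prop

lemma Mi_sub (m : ℕ) (i : ZMod m) (δ c d a : ℝ) :
    Mi m i δ c d - P m i δ a = δ • R m i (dm δ c d a) := by
  unfold P Mi
  rw [← R_sub, ← R_smul]
  congr 1
  ext
  · simp only [loc, lm, dm, Prod.fst_sub, Prod.smul_fst, smul_eq_mul]; ring
  · simp only [loc, lm, dm, Prod.snd_sub, Prod.smul_snd, smul_eq_mul]; ring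

lemma ev_T1 {m : ℕ} (i : ZMod m) {a b c d : ℝ} (ha : 0 < a) (ha1 : a ≤ 1) (hb1 : b ≤ 1)
    (hab : a ≤ b) (h : 2 * c < a ∨ b < 2 * c ∨
      (a < b ∧ 0 < ((c + d) * (2 * c) - c * d) - ((a + b) * (2 * c) - a * b))) :
    ∀ᶠ δ in 𝓝[>] (0 : ℝ), ExtC (P m i δ a) (P m i δ b) (Mi m i δ c d) := by
  rcases h with h | h | ⟨h, hD⟩
  · filter_upwards [ev_Ioo, ev_lm_lt i d h] with δ h0 h1
    exact Or.inl ⟨cr_same i h0.1 h0.2 ha ha1 hb1 hab, Or.inl h1⟩
  · filter_upwards [ev_Ioo, ev_lm_gt i d h] with δ h0 h1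
    exact Or.inl ⟨cr_same i h0.1 h0.2 ha ha1 hb1 hab, Or.inr (Or.inl h1)⟩
  · filter_upwards [ev_Ioo] with δ h0
    refine Or.inl ⟨cr_same i h0.1 h0.2 ha ha1 hb1 hab, Or.inr (Or.inr ?_)⟩
    rw [P_sub, Mi_sub]
    have e : cr (δ • R m i (df δ b a)) (δ • R m i (dm δ c d a)) =
        -(δ ^ 3 * (b - a) * (((c + d) * (2 * c) - c * d) - ((a + b) * (2 * c) - a * b))) := by
      rw [← R_smul, ← R_smul, cr_R]
      simp only [cr, df, dm, Prod.smul_fst, Prod.smul_snd, smul_eq_mul]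
      ring
    rw [e]
    have := mul_pos (mul_pos (pow_pos h0.1 3) (sub_pos.2 h)) hD
    linarith

lemma ev_T2 {m : ℕ} (hm : 3 ≤ m) (i : ZMod m) {a c : ℝ} (b d : ℝ) (h : a ≠ 2 * c) :
    ∀ᶠ δ in 𝓝[>] (0 : ℝ), ExtC (P m i δ a) (P m (i + 1) δ b) (Mi m i δ c d) := by
  rcases lt_or_gt_of_ne h with h | h
  · have e : ∀ δ, cr (P m (i + 1) δ b - P m i δ a) (Mi m i δ c d - P m i δ a) =
        δ * cr (P m (i + 1) δ b - P m i δ a) (R m i (dm δ c d a)) := by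
      intro δ
      rw [Mi_sub, cr_smul_right]
    have k : ∀ᶠ δ in 𝓝[>] (0 : ℝ),
        cr (P m (i + 1) δ b - P m i δ a) (Mi m i δ c d - P m i δ a) < 0 := by
      simp only [e]
      apply ev_mul (cr_cont' ((P_cont m (i + 1) b).sub (P_cont m i a))
        ((R_cont m i).comp (dm_cont c d a)))
      change cr (P m (i + 1) 0 b - P m i 0 a) (R m i (dm 0 c d a)) < 0
      rw [g_next hm _ _ _ _ (by simp [dm])]
      have := cos_ph_lt hm
      exact mul_neg_of_neg_of_pos (by linarith) (by simp only [dm]; linarith)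
    filter_upwards [k, ev_next hm i a b] with δ h1 h2
    exact Or.inl ⟨h2.le, Or.inr (Or.inr h1)⟩
  · filter_upwards [ev_lm_lt i d h, ev_next hm i a b] with δ h1 h2
    exact Or.inl ⟨h2.le, Or.inl h1⟩

lemma cr_sub_shift (A B z : ℝ × ℝ) : cr (B - A) (z - A) = cr (B - A) (z - B) := by
  simp only [cr, Prod.fst_sub, Prod.snd_sub]; ring

lemma ev_T3 {m : ℕ} (hm : 3 ≤ m) (i : ZMod m) {a c : ℝ} (b d : ℝ) (h : a ≠ 2 * c) :
    ∀ᶠ δ in 𝓝[>] (0 : ℝ), ExtC (P m i δ b) (P m (i + 1) δ a) (Mi m (i + 1) δ c d) := by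
  rcases lt_or_gt_of_ne h with h | h
  · filter_upwards [ev_lm_gt (i + 1) d h, ev_next hm i b a] with δ h1 h2
    exact Or.inl ⟨h2.le, Or.inr (Or.inl h1)⟩
  · have e : ∀ δ, cr (P m (i + 1) δ a - P m i δ b) (Mi m (i + 1) δ c d - P m i δ b) =
        δ * cr (P m (i + 1) δ a - P m i δ b) (R m (i + 1) (dm δ c d a)) := by
      intro δ
      rw [cr_sub_shift, Mi_sub, cr_smul_right]
    have k : ∀ᶠ δ in 𝓝[>] (0 : ℝ),
        cr (P m (i + 1) δ a - P m i δ b) (Mi m (i + 1) δ c d - P m i δ b) < 0 := by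
      simp only [e]
      apply ev_mul (cr_cont' ((P_cont m (i + 1) a).sub (P_cont m i b))
        ((R_cont m (i + 1)).comp (dm_cont c d a)))
      change cr (P m (i + 1) 0 a - P m i 0 b) (R m (i + 1) (dm 0 c d a)) < 0
      rw [g_prev hm _ _ _ _ (by simp [dm])]
      have := cos_ph_lt hm
      exact mul_neg_of_pos_of_neg (by linarith) (by simp only [dm]; linarith)
    filter_upwards [k, ev_next hm i b a] with δ h1 h2
    exact Or.inl ⟨h2.le, Or.inr (Or.inr h1)⟩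

lemma ev_T4 {m : ℕ} (hm : 3 ≤ m) {i j k : ZMod m} (hj : j ≠ i) (hk : k ≠ i) (a b c d : ℝ) :
    ∀ᶠ δ in 𝓝[>] (0 : ℝ), ExtC (P m j δ a) (P m k δ b) (Mi m i δ c d) := by
  have c0 : Continuous fun δ => dt (C m i) (Mi m i δ c d) :=
    dt_cont' continuous_const (Mi_cont m i c d)
  have k1 : ∀ᶠ δ in 𝓝[>] (0 : ℝ), 0 < dt (C m i) (Mi m i δ c d) := by
    apply ev_lt continuous_const c0
    rw [Mi_zero, C_self]; exact one_pos
  have k2 : ∀ᶠ δ in 𝓝[>] (0 : ℝ), dt (C m i) (P m j δ a) < dt (C m i) (Mi m i δ c d) := by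
    apply ev_lt (dt_cont' continuous_const (P_cont m j a)) c0
    rw [Mi_zero, C_self, P_zero]
    exact C_lt hm (Ne.symm hj)
  have k3 : ∀ᶠ δ in 𝓝[>] (0 : ℝ), dt (C m i) (P m k δ b) < dt (C m i) (Mi m i δ c d) := by
    apply ev_lt (dt_cont' continuous_const (P_cont m k b)) c0
    rw [Mi_zero, C_self, P_zero]
    exact C_lt hm (Ne.symm hk)
  filter_upwards [k1, k2, k3] with δ h1 h2 h3
  exact Or.inr ⟨C m i, h1, h2, h3⟩

lemma ev_Mi_ne {m : ℕ} (i : ZMod m) (c d : ℝ) : ∀ᶠ δ in 𝓝[>] (0 : ℝ), Mi m i δ c d ≠ 0 := by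
  have k1 : ∀ᶠ δ in 𝓝[>] (0 : ℝ), 0 < dt (C m i) (Mi m i δ c d) := by
    apply ev_lt continuous_const (dt_cont' continuous_const (Mi_cont m i c d))
    rw [Mi_zero, C_self]; exact one_pos
  filter_upwards [k1] with δ h1 h2
  rw [h2] at h1
  simp [dt] at h1

/-! ### the point of a chord between two tracks -/

/-- the point -/
def Bm (m : ℕ) (i k : ZMod m) (α β δ a c : ℝ) : ℝ × ℝ := α • P m i δ a + β • P m k δ c

lemma Bm_cont (m : ℕ) (i k : ZMod m) (α β a c : ℝ) : Continuous fun δ => Bm m i k α β δ a c := by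
  unfold Bm
  exact ((P_cont m i a).const_smul α).add ((P_cont m k c).const_smul β)

lemma Bm_zero (m : ℕ) (i k : ZMod m) (α β a c : ℝ) :
    Bm m i k α β 0 a c = α • C m i + β • C m k := by
  unfold Bm
  rw [P_zero, P_zero]

lemma Bm_mem (m : ℕ) (i k : ZMod m) {α β : ℝ} (δ a c : ℝ) (hα : 0 < α) (hβ : 0 < β)
    (hab : α + β = 1) : Bm m i k α β δ a c ∈ segment ℝ (P m i δ a) (P m k δ c) :=
  ⟨α, β, hα.le, hβ.le, hab, rfl⟩

/-- inner visibility far from the own side -/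
lemma ev_inn {m : ℕ} (hm : 3 ≤ m) {i k j : ZMod m} {α β : ℝ} (hα : 0 < α) (hβ : 0 < β)
    (hab : α + β = 1) (h : ¬ ((i = j ∨ i = j + 1) ∧ (k = j ∨ k = j + 1))) {k1 k2 : ZMod m}
    (h1 : k1 = j ∨ k1 = j + 1) (h2 : k2 = j ∨ k2 = j + 1) (a c a' c' : ℝ) :
    ∀ᶠ δ in 𝓝[>] (0 : ℝ), InnC (P m k1 δ a') (P m k2 δ c') (Bm m i k α β δ a c) := by
  have e1 : dt (N m j) (C m k1) = hh m := by
    rcases h1 with h1 | h1
    · rw [h1, N_zero hm]
    · rw [h1, N_one hm]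
  have e2 : dt (N m j) (C m k2) = hh m := by
    rcases h2 with h2 | h2
    · rw [h2, N_zero hm]
    · rw [h2, N_one hm]
  have e3 := N_comb hm hα hβ hab h
  have c0 : Continuous fun δ => dt (N m j) (Bm m i k α β δ a c) :=
    dt_cont' continuous_const (Bm_cont m i k α β a c)
  have c1 : Continuous fun δ => dt (N m j) (P m k1 δ a') :=
    dt_cont' continuous_const (P_cont m k1 a')
  have c2 : Continuous fun δ => dt (N m j) (P m k2 δ c') :=
    dt_cont' continuous_const (P_cont m k2 c')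
  have f1 : ∀ᶠ δ in 𝓝[>] (0 : ℝ), 0 < dt (N m j) (P m k1 δ a') := by
    apply ev_lt continuous_const c1
    rw [P_zero, e1]; exact hh_pos hm
  have f2 : ∀ᶠ δ in 𝓝[>] (0 : ℝ), 0 < dt (N m j) (P m k2 δ c') := by
    apply ev_lt continuous_const c2
    rw [P_zero, e2]; exact hh_pos hm
  have f3 : ∀ᶠ δ in 𝓝[>] (0 : ℝ),
      dt (N m j) (Bm m i k α β δ a c) < dt (N m j) (P m k1 δ a') := by
    apply ev_lt c0 c1
    rw [P_zero, e1, Bm_zero]; exact e3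
  have f4 : ∀ᶠ δ in 𝓝[>] (0 : ℝ),
      dt (N m j) (Bm m i k α β δ a c) < dt (N m j) (P m k2 δ c') := by
    apply ev_lt c0 c2
    rw [P_zero, e2, Bm_zero]; exact e3
  filter_upwards [f1, f2, f3, f4] with δ g1 g2 g3 g4
  exact Or.inr ⟨N m j, g1, g2, g3, g4⟩

lemma Bm_cross {m : ℕ} (i : ZMod m) (α β δ a c a' c' : ℝ) (hab : α + β = 1) :
    cr (P m (i + 1) δ c' - P m i δ a') (Bm m i (i + 1) α β δ a c - P m i δ a') =
      δ * cr (P m (i + 1) δ c' - P m i δ a')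
        (α • R m i (df δ a a') + β • R m (i + 1) (df δ c c')) := by
  have e1 := P_sub m i δ a a'
  have e2 := P_sub m (i + 1) δ c c'
  have e3 : δ • (α • R m i (df δ a a') + β • R m (i + 1) (df δ c c')) =
      α • (P m i δ a - P m i δ a') + β • (P m (i + 1) δ c - P m (i + 1) δ c') := by
    rw [e1, e2, smul_add, smul_comm δ α, smul_comm δ β]
  rw [← cr_smul_right, e3]
  unfold Bm
  have ea : α = 1 - β := by linarith
  subst ea
  simp only [cr, Prod.fst_sub, Prod.snd_sub, Prod.fst_add, Prod.snd_add, Prod.smul_fst,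
    Prod.smul_snd, smul_eq_mul]
  ring

lemma Bm_lead {m : ℕ} (hm : 3 ≤ m) (i : ZMod m) (α β a c a' c' : ℝ) :
    cr (P m (i + 1) 0 c' - P m i 0 a')
        (α • R m i (df 0 a a') + β • R m (i + 1) (df 0 c c')) =
      (1 - cos (ph m)) * (α * (a' - a) - β * (c' - c)) := by
  have e : ∀ z p q : ℝ × ℝ, cr z (α • p + β • q) = α * cr z p + β * cr z q := by
    intro z p q
    simp only [cr, Prod.fst_add, Prod.snd_add, Prod.smul_fst, Prod.smul_snd, smul_eq_mul]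
    ring
  rw [e, g_next hm _ _ _ _ (by simp [df]), g_prev hm _ _ _ _ (by simp [df])]
  simp only [df]
  ring

lemma Bm_gcont {m : ℕ} (i : ZMod m) (α β a c a' c' : ℝ) :
    Continuous fun δ => cr (P m (i + 1) δ c' - P m i δ a')
        (α • R m i (df δ a a') + β • R m (i + 1) (df δ c c')) :=
  cr_cont' ((P_cont m (i + 1) c').sub (P_cont m i a'))
    ((((R_cont m i).comp (df_cont a a')).const_smul α).add
      (((R_cont m (i + 1)).comp (df_cont c c')).const_smul β))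

lemma ev_W {m : ℕ} (hm : 3 ≤ m) (i : ZMod m) {α β a c a' c' : ℝ} (hab : α + β = 1)
    (h : 0 < α * (a' - a) - β * (c' - c)) :
    ∀ᶠ δ in 𝓝[>] (0 : ℝ),
      InnC (P m i δ a') (P m (i + 1) δ c') (Bm m i (i + 1) α β δ a c) := by
  have k := ev_mulp (Bm_gcont i α β a c a' c') (by
    rw [Bm_lead hm]
    have := cos_ph_lt hm
    exact mul_pos (by linarith) h)
  filter_upwards [k, ev_next hm i a' c'] with δ h1 h2
  refine Or.inl ⟨h2, ?_⟩
  rw [Bm_cross i α β δ a c a' c' hab]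
  exact h1

lemma ev_N {m : ℕ} (hm : 3 ≤ m) (i : ZMod m) {α β a c a' c' : ℝ} (hab : α + β = 1)
    (h : α * (a' - a) - β * (c' - c) < 0) :
    ∀ᶠ δ in 𝓝[>] (0 : ℝ),
      ExtC (P m i δ a') (P m (i + 1) δ c') (Bm m i (i + 1) α β δ a c) := by
  have k := ev_mul (Bm_gcont i α β a c a' c') (by
    rw [Bm_lead hm]
    have := cos_ph_lt hm
    exact mul_neg_of_pos_of_neg (by linarith) h)
  filter_upwards [k, ev_next hm i a' c'] with δ h1 h2
  refine Or.inl ⟨h2.le, Or.inr (Or.inr ?_)⟩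
  rw [Bm_cross i α β δ a c a' c' hab]
  exact h1

lemma C_cross {m : ℕ} (hm : 3 ≤ m) (i : ZMod m) : cr (C m i) (C m (i + 1)) = sin (ph m) := by
  unfold C
  rw [R_add hm, cr_R, R_one hm]
  simp [cr]

lemma ev_N2 {m : ℕ} (hm : 3 ≤ m) (i k : ZMod m) {α β : ℝ} (a c a' c' : ℝ) (hβ : 0 < β)
    (h : ∀ᶠ δ in 𝓝[>] (0 : ℝ), 0 ≤ cr (P m k δ a') (P m i δ c')) :
    ∀ᶠ δ in 𝓝[>] (0 : ℝ),
      ExtC (P m k δ a') (P m i δ c') (Bm m i (i + 1) α β δ a c) := by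
  have k1 : ∀ᶠ δ in 𝓝[>] (0 : ℝ), cr (Bm m i (i + 1) α β δ a c) (P m i δ c') < 0 := by
    apply ev_lt (cr_cont' (Bm_cont m i (i + 1) α β a c) (P_cont m i c')) continuous_const
    rw [Bm_zero, P_zero]
    have e : cr (α • C m i + β • C m (i + 1)) (C m i) = - (β * cr (C m i) (C m (i + 1))) := by
      simp only [cr, Prod.fst_add, Prod.snd_add, Prod.smul_fst, Prod.smul_snd, smul_eq_mul]
      ring
    rw [e, C_cross hm]
    have := mul_pos hβ (sin_ph_pos hm)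
    linarith
  filter_upwards [k1, h] with δ h1 h2
  exact Or.inl ⟨h2, Or.inr (Or.inl h1)⟩

lemma ev_N3 {m : ℕ} (hm : 3 ≤ m) (i k : ZMod m) {α β : ℝ} (a c a' c' : ℝ) (hα : 0 < α)
    (h : ∀ᶠ δ in 𝓝[>] (0 : ℝ), 0 ≤ cr (P m (i + 1) δ a') (P m k δ c')) :
    ∀ᶠ δ in 𝓝[>] (0 : ℝ),
      ExtC (P m (i + 1) δ a') (P m k δ c') (Bm m i (i + 1) α β δ a c) := by
  have k1 : ∀ᶠ δ in 𝓝[>] (0 : ℝ), cr (P m (i + 1) δ a') (Bm m i (i + 1) α β δ a c) < 0 := by
    apply ev_lt (cr_cont' (P_cont m (i + 1) a') (Bm_cont m i (i + 1) α β a c)) continuous_const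
    rw [Bm_zero, P_zero]
    have e : cr (C m (i + 1)) (α • C m i + β • C m (i + 1)) =
        - (α * cr (C m i) (C m (i + 1))) := by
      simp only [cr, Prod.fst_add, Prod.snd_add, Prod.smul_fst, Prod.smul_snd, smul_eq_mul]
      ring
    rw [e, C_cross hm]
    have := mul_pos hα (sin_ph_pos hm)
    linarith
  filter_upwards [k1, h] with δ h1 h2
  exact Or.inl ⟨h2, Or.inl h1⟩

lemma Bm_N {m : ℕ} (hm : 3 ≤ m) (i : ZMod m) {α β : ℝ} (a c : ℝ) (hab : α + β = 1) :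
    dt (N m i) (Bm m i (i + 1) α β 0 a c) = hh m := by
  rw [Bm_zero, dt_comb, N_zero hm, N_one hm, ← add_mul, hab, one_mul]

lemma ev_N4 {m : ℕ} (hm : 3 ≤ m) {i j k : ZMod m} {α β : ℝ} (a c a' c' : ℝ) (hab : α + β = 1)
    (hj0 : j ≠ i) (hj1 : j ≠ i + 1) (hk0 : k ≠ i) (hk1 : k ≠ i + 1) :
    ∀ᶠ δ in 𝓝[>] (0 : ℝ),
      ExtC (P m j δ a') (P m k δ c') (Bm m i (i + 1) α β δ a c) := by
  have c0 : Continuous fun δ => dt (N m i) (Bm m i (i + 1) α β δ a c) :=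
    dt_cont' continuous_const (Bm_cont m i (i + 1) α β a c)
  have f1 : ∀ᶠ δ in 𝓝[>] (0 : ℝ), 0 < dt (N m i) (Bm m i (i + 1) α β δ a c) := by
    apply ev_lt continuous_const c0
    rw [Bm_N hm i a c hab]; exact hh_pos hm
  have f2 : ∀ᶠ δ in 𝓝[>] (0 : ℝ),
      dt (N m i) (P m j δ a') < dt (N m i) (Bm m i (i + 1) α β δ a c) := by
    apply ev_lt (dt_cont' continuous_const (P_cont m j a')) c0
    rw [Bm_N hm i a c hab, P_zero]; exact N_lt hm hj0 hj1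
  have f3 : ∀ᶠ δ in 𝓝[>] (0 : ℝ),
      dt (N m i) (P m k δ c') < dt (N m i) (Bm m i (i + 1) α β δ a c) := by
    apply ev_lt (dt_cont' continuous_const (P_cont m k c')) c0
    rw [Bm_N hm i a c hab, P_zero]; exact N_lt hm hk0 hk1
  filter_upwards [f1, f2, f3] with δ h1 h2 h3
  exact Or.inr ⟨N m i, h1, h2, h3⟩

lemma ev_Bm_ne {m : ℕ} (hm : 3 ≤ m) (i : ZMod m) {α β : ℝ} (a c : ℝ) (hab : α + β = 1) :
    ∀ᶠ δ in 𝓝[>] (0 : ℝ), Bm m i (i + 1) α β δ a c ≠ 0 := by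
  have f1 : ∀ᶠ δ in 𝓝[>] (0 : ℝ), 0 < dt (N m i) (Bm m i (i + 1) α β δ a c) := by
    apply ev_lt continuous_const (dt_cont' continuous_const (Bm_cont m i (i + 1) α β a c))
    rw [Bm_N hm i a c hab]; exact hh_pos hm
  filter_upwards [f1] with δ h1 h2
  rw [h2] at h1
  simp [dt] at h1

end

end Pool.Agent.Helper1.Cyc
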