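import Pool.Agent.Helper1.Cyc.Scale
import Pool.Agent.Helper1.Cyc.Pos

set_option autoImplicit false

/-!
Cyclic tracks with a common time order: two obstacles.
-/

namespace Pool.Agent.Helper1.Cyc

open Set Filter Topology Real

noncomputable section

/-- the class of graphs -/
structure IsCyc {V : Type} (G : SimpleGraph V) {m : ℕ} (τ : V → ZMod m) (t : V → ℕ) : Prop where
  inj : Function.Injective t
  adj : ∀ u v, G.Adj u v → τ v = τ u ∨ τ v = τ u + 1 ∨ τ u = τ v + 1
  clo : ∀ a b c d, G.Adj a b → τ b = τ a → τ c = τ a → τ d = τ a → t a ≤ t c → t c < t d →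
    t d ≤ t b → G.Adj c d
  beam : ∀ a c, τ c = τ a + 1 → ¬ G.Adj a c →
    (t a < t c ∧ ∀ a' c', τ a' = τ a → τ c' = τ c → G.Adj a' c' → t a' ≤ t a → t c' < t c) ∨
    (t c < t a ∧ ∀ a' c', τ a' = τ a → τ c' = τ c → G.Adj a' c' → t a ≤ t a' → t c < t c') ∨
    (∀ w, G.Adj a w → (τ w = τ a → t w < t a) ∧ (τ w = τ c → t c < t w)) ∨
    (∀ w, G.Adj c w → (τ w = τ c → t c < t w) ∧ (τ w = τ a → t w < t a))

/-- positions -/
def pos {V : Type} {m : ℕ} (τ : V → ZMod m) (x : V → ℝ) (δ : ℝ) (v : V) : ℝ × ℝ :=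
  P m (τ v) δ (x v)

/-- orientation of the edges -/
def Ori {V : Type} {m : ℕ} (τ : V → ZMod m) (x : V → ℝ) (u v : V) : Prop :=
  (τ v = τ u ∧ x u ≤ x v) ∨ τ v = τ u + 1

/-- an edge or a vertex -/
def Ed {V : Type} (G : SimpleGraph V) (u v : V) : Prop := u = v ∨ G.Adj u v

section
variable {V : Type} {G : SimpleGraph V} {m : ℕ} {τ : V → ZMod m} {t : V → ℕ} {x : V → ℝ}

lemma ne_two (hx : IsScale t x) (hi : Function.Injective t) (u c : V) : x u ≠ 2 * x c := by
  have pc := hx.pos c
  rcases Nat.lt_trichotomy (t u) (t c) with h | h | h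
  · have := hx.lt h; intro e; linarith
  · have e := hi h
    subst e
    intro e; linarith
  · have := hx.lt8 h; intro e; linarith

/-- the target of the case distinction -/
def Seen (G : SimpleGraph V) (τ : V → ZMod m) (x : V → ℝ) (a c : V) (δ : ℝ) : Prop :=
  ∃ z ∈ segment ℝ (pos τ x δ a) (pos τ x δ c),
    (∀ u w, Ed G u w → Ori τ x u w → InnC (pos τ x δ u) (pos τ x δ w) z) ∨
      (z ≠ 0 ∧ ∀ u w, Ed G u w → Ori τ x u w → ExtC (pos τ x δ u) (pos τ x δ w) z)

lemma ev_forall2 [Finite V] {p : V → V → ℝ → Prop} (Q : V → V → Prop)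
    (h : ∀ u w, Q u w → ∀ᶠ δ in 𝓝[>] (0 : ℝ), p u w δ) :
    ∀ᶠ δ in 𝓝[>] (0 : ℝ), ∀ u w, Q u w → p u w δ := by
  rw [Filter.eventually_all]
  intro u
  rw [Filter.eventually_all]
  intro w
  by_cases hq : Q u w
  · exact (h u w hq).mono fun δ hδ _ => hδ
  · exact Filter.Eventually.of_forall fun δ hδ => absurd hδ hq

lemma Ori.ev (hm : 3 ≤ m) (hx : IsScale t x) {u w : V} (h : Ori τ x u w) :
    ∀ᶠ δ in 𝓝[>] (0 : ℝ), 0 ≤ cr (pos τ x δ u) (pos τ x δ w) := by
  rcases h with ⟨h1, h2⟩ | h1
  · filter_upwards [ev_Ioo] with δ h0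
    unfold pos
    rw [h1]
    exact cr_same _ h0.1 h0.2 (hx.pos u) (hx.le1 u) (hx.le1 w) h2
  · filter_upwards [ev_next hm (τ u) (x u) (x w)] with δ h0
    unfold pos
    rw [h1]
    exact h0.le

/-- non-edges inside a track -/
lemma seen_track [Finite V] (hm : 3 ≤ m) (hG : IsCyc G τ t) (hx : IsScale t x) {c d : V}
    (hτ : τ d = τ c) (hcd : t c < t d) (hn : ¬ G.Adj c d) :
    ∀ᶠ δ in 𝓝[>] (0 : ℝ), Seen G τ x c d δ := by
  have key : ∀ᶠ δ in 𝓝[>] (0 : ℝ), ∀ u w, (Ed G u w ∧ Ori τ x u w) →
      ExtC (pos τ x δ u) (pos τ x δ w) (Mi m (τ c) δ (x c) (x d)) := by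
    apply ev_forall2
    rintro u w ⟨hE, hO⟩
    rcases hO with ⟨h1, h2⟩ | h1
    · by_cases hi : τ u = τ c
      · have hw : τ w = τ c := h1.trans hi
        have e : ∀ᶠ δ in 𝓝[>] (0 : ℝ),
            ExtC (P m (τ c) δ (x u)) (P m (τ c) δ (x w)) (Mi m (τ c) δ (x c) (x d)) := by
          apply ev_T1 (τ c) (hx.pos u) (hx.le1 u) (hx.le1 w) h2
          rcases lt_or_gt_of_ne (ne_two hx hG.inj u c) with h3 | h3
          · rcases lt_or_gt_of_ne (ne_two hx hG.inj w c) with h4 | h4
            · exact Or.inr (Or.inl h4)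
            · right; right
              have h5 : x u < x w := by linarith
              have huw : G.Adj u w := by
                rcases hE with hE | hE
                · rw [hE] at h5; exact absurd h5 (lt_irrefl _)
                · exact hE
              have h6 : t u ≤ t c := by
                by_contra hcon
                have := hx.lt8 (lt_of_not_ge hcon)
                have := hx.pos c
                linarith
              have h7 : t w < t d := by
                by_contra hcon
                exact hn (hG.clo u w c d huw h1 hi.symm (hτ.trans hi.symm) h6 hcd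
                  (not_lt.1 hcon))
              exact ⟨h5, hx.chord ((hx.le_iff hG.inj).2 h6) h7⟩
          · exact Or.inl h3
        filter_upwards [e] with δ hδ
        unfold pos
        rw [hi, hw]
        exact hδ
      · have hw : τ w ≠ τ c := by rw [h1]; exact hi
        exact ev_T4 hm hi hw _ _ _ _
    · by_cases hi : τ u = τ c
      · have e := ev_T2 hm (τ c) (a := x u) (c := x c) (x w) (x d) (ne_two hx hG.inj u c)
        filter_upwards [e] with δ hδ
        unfold pos
        rw [h1, hi]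
        exact hδ
      · by_cases hw : τ w = τ c
        · have e := ev_T3 hm (τ u) (a := x w) (c := x c) (x u) (x d) (ne_two hx hG.inj w c)
          filter_upwards [e] with δ hδ
          unfold pos
          rw [← hw, h1]
          exact hδ
        · exact ev_T4 hm hi hw _ _ _ _
  filter_upwards [key, ev_Mi_ne (τ c) (x c) (x d)] with δ h1 h2
  refine ⟨Mi m (τ c) δ (x c) (x d), ?_, Or.inr ⟨h2, fun u w h3 h4 => h1 u w ⟨h3, h4⟩⟩⟩
  have := Mi_mem m (τ c) δ (hx.pos c) (hx.lt8 hcd)
  unfold pos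
  rw [hτ]
  exact this

/-- non-edges between tracks that are not consecutive -/
lemma seen_far [Finite V] (hm : 3 ≤ m) {a c : V} (h0 : τ c ≠ τ a) (h1 : τ c ≠ τ a + 1)
    (h2 : τ a ≠ τ c + 1) : ∀ᶠ δ in 𝓝[>] (0 : ℝ), Seen G τ x a c δ := by
  have key : ∀ᶠ δ in 𝓝[>] (0 : ℝ), ∀ u w, (Ed G u w ∧ Ori τ x u w) →
      InnC (pos τ x δ u) (pos τ x δ w) (Bm m (τ a) (τ c) (1 / 2) (1 / 2) δ (x a) (x c)) := by
    apply ev_forall2
    rintro u w ⟨_, hO⟩
    have hw : τ w = τ u ∨ τ w = τ u + 1 := hO.imp (fun h => h.1) id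
    apply ev_inn hm (j := τ u) (by norm_num) (by norm_num) (by norm_num) ?_ (Or.inl rfl) hw
    rintro ⟨h3 | h3, h4 | h4⟩
    · exact h0 (h4.trans h3.symm)
    · exact h1 (by rw [h4, h3])
    · exact h2 (by rw [h4, h3])
    · exact h0 (h4.trans h3.symm)
  filter_upwards [key] with δ hδ
  exact ⟨_, Bm_mem m (τ a) (τ c) δ (x a) (x c) (by norm_num) (by norm_num) (by norm_num),
    Or.inl fun u w h3 h4 => hδ u w ⟨h3, h4⟩⟩

/-- non-edges between consecutive tracks, seen from the origin -/
lemma seen_W [Finite V] (hm : 3 ≤ m) (hG : IsCyc G τ t) (hx : IsScale t x) {a c : V}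
    (hτ : τ c = τ a + 1) (hac : t a < t c)
    (hW : ∀ a' c', τ a' = τ a → τ c' = τ c → G.Adj a' c' → t a' ≤ t a → t c' < t c) :
    ∀ᶠ δ in 𝓝[>] (0 : ℝ), Seen G τ x a c δ := by
  have pa := hx.pos a
  have pc := hx.pos c
  have p0 : 0 < x c + 2 * x a := by linarith
  have hα : 0 < x c / (x c + 2 * x a) := div_pos pc p0
  have hβ : 0 < 2 * x a / (x c + 2 * x a) := div_pos (by linarith) p0
  have hab : x c / (x c + 2 * x a) + 2 * x a / (x c + 2 * x a) = 1 := by
    rw [← add_div, div_self p0.ne']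
  have key : ∀ᶠ δ in 𝓝[>] (0 : ℝ), ∀ u w, (Ed G u w ∧ Ori τ x u w) →
      InnC (pos τ x δ u) (pos τ x δ w)
        (Bm m (τ a) (τ a + 1) (x c / (x c + 2 * x a)) (2 * x a / (x c + 2 * x a)) δ
          (x a) (x c)) := by
    apply ev_forall2
    rintro u w ⟨hE, hO⟩
    have hw : τ w = τ u ∨ τ w = τ u + 1 := hO.imp (fun h => h.1) id
    by_cases hu : τ u = τ a
    · by_cases hw1 : τ w = τ a + 1
      · -- same beam
        have huw : G.Adj u w := by
          rcases hE with hE | hE
          · exfalso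
            rw [← hE, hu] at hw1
            exact one_ne hm (by simpa using hw1)
          · exact hE
        have hne : t u ≠ t c := by
          intro h
          have e := hG.inj h
          rw [e, hτ] at hu
          exact one_ne hm (by simpa using hu)
        have hull := hx.hull hG.inj (a := a) (c := c) (a' := u) (c' := w) hac hne
          (fun h => hW u w hu (hw1.trans hτ.symm) huw h)
        have e := ev_W hm (τ a) (α := x c / (x c + 2 * x a)) (β := 2 * x a / (x c + 2 * x a))
          (a := x a) (c := x c) (a' := x u) (c' := x w) hab (by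
            have e : x c / (x c + 2 * x a) * (x u - x a) -
                2 * x a / (x c + 2 * x a) * (x w - x c) =
                ((x u + x a) * x c - 2 * x a * x w) / (x c + 2 * x a) := by
              field_simp
              ring
            rw [e]
            exact div_pos (by linarith) p0)
        filter_upwards [e] with δ hδ
        unfold pos
        rw [hu, hw1]
        exact hδ
      · have hw2 : τ w = τ a := by
          rcases hw with hw | hw
          · exact hw.trans hu
          · rw [hu] at hw; exact absurd hw hw1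
        have e : ∀ᶠ δ in 𝓝[>] (0 : ℝ), InnC (P m (τ u) δ (x u)) (P m (τ w) δ (x w))
            (Bm m (τ a) (τ a + 1) (x c / (x c + 2 * x a)) (2 * x a / (x c + 2 * x a)) δ
              (x a) (x c)) := by
          apply ev_inn hm (j := τ a - 1) hα hβ hab ?_ (Or.inr (by rw [hu]; ring))
            (Or.inr (by rw [hw2]; ring))
          rintro ⟨_, h4 | h4⟩
          · have : (2 : ZMod m) = 0 := by linear_combination h4
            exact two_ne hm this
          · have : (1 : ZMod m) = 0 := by linear_combination h4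
            exact one_ne hm this
        exact e
    · have e : ∀ᶠ δ in 𝓝[>] (0 : ℝ), InnC (P m (τ u) δ (x u)) (P m (τ w) δ (x w))
          (Bm m (τ a) (τ a + 1) (x c / (x c + 2 * x a)) (2 * x a / (x c + 2 * x a)) δ
            (x a) (x c)) := by
        apply ev_inn hm (j := τ u) hα hβ hab ?_ (Or.inl rfl) hw
        rintro ⟨h3 | h3, h4 | h4⟩
        · exact hu h3.symm
        · exact hu h3.symm
        · have : (2 : ZMod m) = 0 := by
            rw [h3] at h4
            linear_combination h4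
          exact two_ne hm this
        · exact hu (by linear_combination -h4)
      exact e
  filter_upwards [key] with δ hδ
  refine ⟨_, ?_, Or.inl fun u w h3 h4 => hδ u w ⟨h3, h4⟩⟩
  have := Bm_mem m (τ a) (τ a + 1) δ (x a) (x c) hα hβ hab
  unfold pos
  rw [hτ]
  exact this

/-- non-edges between consecutive tracks, seen from infinity -/
lemma seen_N [Finite V] (hm : 3 ≤ m) (hG : IsCyc G τ t) (hx : IsScale t x) {a c : V}
    (hτ : τ c = τ a + 1) (hac : t c < t a)
    (hN : ∀ a' c', τ a' = τ a → τ c' = τ c → G.Adj a' c' → t a ≤ t a' → t c < t c') :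
    ∀ᶠ δ in 𝓝[>] (0 : ℝ), Seen G τ x a c δ := by
  have pa := hx.pos a
  have pc := hx.pos c
  have p0 : 0 < 2 * x c + x a := by linarith
  have hα : 0 < 2 * x c / (2 * x c + x a) := div_pos (by linarith) p0
  have hβ : 0 < x a / (2 * x c + x a) := div_pos pa p0
  have hab : 2 * x c / (2 * x c + x a) + x a / (2 * x c + x a) = 1 := by
    rw [← add_div, div_self p0.ne']
  have key : ∀ᶠ δ in 𝓝[>] (0 : ℝ), ∀ u w, (Ed G u w ∧ Ori τ x u w) →
      ExtC (pos τ x δ u) (pos τ x δ w)
        (Bm m (τ a) (τ a + 1) (2 * x c / (2 * x c + x a)) (x a / (2 * x c + x a)) δ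
          (x a) (x c)) := by
    apply ev_forall2
    rintro u w ⟨hE, hO⟩
    have hw : τ w = τ u ∨ τ w = τ u + 1 := hO.imp (fun h => h.1) id
    have hcr := hO.ev hm hx
    by_cases hw0 : τ w = τ a
    · have e := ev_N2 hm (τ a) (τ u) (α := 2 * x c / (2 * x c + x a)) (x a) (x c) (x u) (x w) hβ
        (by
          filter_upwards [hcr] with δ hδ
          unfold pos at hδ
          rw [hw0] at hδ
          exact hδ)
      filter_upwards [e] with δ hδ
      unfold pos
      rw [hw0]
      exact hδ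
    · by_cases hu1 : τ u = τ a + 1
      · have e := ev_N3 hm (τ a) (τ w) (β := x a / (2 * x c + x a)) (x a) (x c) (x u) (x w) hα
          (by
            filter_upwards [hcr] with δ hδ
            unfold pos at hδ
            rw [hu1] at hδ
            exact hδ)
        filter_upwards [e] with δ hδ
        unfold pos
        rw [hu1]
        exact hδ
      · by_cases hu : τ u = τ a
        · have hw1 : τ w = τ a + 1 := by
            rcases hw with hw | hw
            · exact absurd (hw.trans hu) hw0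
            · rw [hw, hu]
          have huw : G.Adj u w := by
            rcases hE with hE | hE
            · exfalso
              rw [hE] at hu
              exact hw0 hu
            · exact hE
          have hne : t w ≠ t a := by
            intro h
            have e := hG.inj h
            rw [e] at hw0
            exact hw0 rfl
          have hull := hx.hull hG.inj (a := c) (c := a) (a' := w) (c' := u) hac hne
            (fun h => by
              by_contra hcon
              have := hN u w hu (hw1.trans hτ.symm) huw (not_lt.1 hcon)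
              omega)
          have e := ev_N hm (τ a) (α := 2 * x c / (2 * x c + x a)) (β := x a / (2 * x c + x a))
            (a := x a) (c := x c) (a' := x u) (c' := x w) hab (by
              have e : 2 * x c / (2 * x c + x a) * (x u - x a) -
                  x a / (2 * x c + x a) * (x w - x c) =
                  -(((x w + x c) * x a - 2 * x c * x u) / (2 * x c + x a)) := by
                field_simp
                ring
              rw [e, neg_lt_zero]
              exact div_pos (by linarith) p0)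
          filter_upwards [e] with δ hδ
          unfold pos
          rw [hu, hw1]
          exact hδ
        · have hw1 : τ w ≠ τ a + 1 := by
            intro h
            rcases hw with hw | hw
            · exact hu1 (hw.symm.trans h)
            · exact hu (by
                have := hw.symm.trans h
                exact add_right_cancel this)
          exact ev_N4 hm (x a) (x c) (x u) (x w) hab hu hu1 hw0 hw1
  filter_upwards [key, ev_Bm_ne hm (τ a) (x a) (x c) hab] with δ hδ hne
  refine ⟨_, ?_, Or.inr ⟨hne, fun u w h3 h4 => hδ u w ⟨h3, h4⟩⟩⟩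
  have := Bm_mem m (τ a) (τ a + 1) δ (x a) (x c) hα hβ hab
  unfold pos
  rw [hτ]
  exact this

/-- good parameters -/
structure Good (τ : V → ZMod m) (x : V → ℝ) (δ : ℝ) : Prop where
  g0 : 0 < δ
  g0' : δ < 1
  g1 : ∀ u w, τ w = τ u + 1 → 0 < cr (pos τ x δ u) (pos τ x δ w)
  g3 : ∀ u a w, τ a = τ u → τ w = τ u + 1 → x u < x a →
    cr (pos τ x δ w - pos τ x δ u) (pos τ x δ a - pos τ x δ u) < 0
  g4 : ∀ w u a, τ u = τ w + 1 → τ a = τ u → x a < x u →
    cr (pos τ x δ u - pos τ x δ w) (pos τ x δ a - pos τ x δ u) < 0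
  g5 : ∀ a b, τ b ≠ τ a → dt (C m (τ a)) (pos τ x δ b) < dt (C m (τ a)) (pos τ x δ a)
  g6 : ∀ a, 0 < dt (C m (τ a)) (pos τ x δ a)

lemma ev_imp {q : Prop} {p : ℝ → Prop} (h : q → ∀ᶠ δ in 𝓝[>] (0 : ℝ), p δ) :
    ∀ᶠ δ in 𝓝[>] (0 : ℝ), q → p δ := by
  by_cases hq : q
  · exact (h hq).mono fun δ hδ _ => hδ
  · exact Filter.Eventually.of_forall fun δ hδ => absurd hδ hq

lemma ev_good [Finite V] (hm : 3 ≤ m) (τ : V → ZMod m) (x : V → ℝ) :
    ∀ᶠ δ in 𝓝[>] (0 : ℝ), Good τ x δ := by
  have e1 : ∀ᶠ δ in 𝓝[>] (0 : ℝ), ∀ u w, τ w = τ u + 1 →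
      0 < cr (pos τ x δ u) (pos τ x δ w) := by
    apply ev_forall2
    intro u w h
    filter_upwards [ev_next hm (τ u) (x u) (x w)] with δ hδ
    unfold pos
    rw [h]
    exact hδ
  have e3 : ∀ᶠ δ in 𝓝[>] (0 : ℝ), ∀ u a w, τ a = τ u → τ w = τ u + 1 → x u < x a →
      cr (pos τ x δ w - pos τ x δ u) (pos τ x δ a - pos τ x δ u) < 0 := by
    rw [Filter.eventually_all]
    intro u
    rw [Filter.eventually_all]
    intro a
    rw [Filter.eventually_all]
    intro w
    refine ev_imp fun h1 => ev_imp fun h2 => ev_imp fun h3 => ?_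
    filter_upwards [ev_below hm (τ u) (x w) h3] with δ hδ
    unfold pos
    rw [h1, h2]
    exact hδ
  have e4 : ∀ᶠ δ in 𝓝[>] (0 : ℝ), ∀ w u a, τ u = τ w + 1 → τ a = τ u → x a < x u →
      cr (pos τ x δ u - pos τ x δ w) (pos τ x δ a - pos τ x δ u) < 0 := by
    rw [Filter.eventually_all]
    intro w
    rw [Filter.eventually_all]
    intro u
    rw [Filter.eventually_all]
    intro a
    refine ev_imp fun h1 => ev_imp fun h2 => ev_imp fun h3 => ?_
    filter_upwards [ev_above hm (τ w) (x w) h3] with δ hδ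
    unfold pos
    rw [h2, h1]
    exact hδ
  have e5 : ∀ᶠ δ in 𝓝[>] (0 : ℝ), ∀ a b, τ b ≠ τ a →
      dt (C m (τ a)) (pos τ x δ b) < dt (C m (τ a)) (pos τ x δ a) := by
    apply ev_forall2
    intro a b h
    exact ev_far hm h (x a) (x b)
  have e6 : ∀ᶠ δ in 𝓝[>] (0 : ℝ), ∀ a, 0 < dt (C m (τ a)) (pos τ x δ a) := by
    rw [Filter.eventually_all]
    intro a
    exact ev_pos' (τ a) (x a)
  filter_upwards [ev_Ioo, e1, e3, e4, e5, e6] with δ h0 h1 h3 h4 h5 h6
  exact ⟨h0.1, h0.2, h1, h3, h4, h5, h6⟩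

lemma Good.same {δ : ℝ} (h : Good τ x δ) (hx : IsScale t x) {u w : V} (hτ : τ w = τ u)
    (huw : x u < x w) : cr (pos τ x δ w) (pos τ x δ u) < 0 := by
  unfold pos
  rw [hτ]
  exact cr_same_lt _ h.g0 h.g0' (hx.pos u) (hx.le1 u) (hx.le1 w) huw

lemma Good.ori {δ : ℝ} (h : Good τ x δ) (hx : IsScale t x) {u w : V} (hO : Ori τ x u w) :
    0 ≤ cr (pos τ x δ u) (pos τ x δ w) := by
  rcases hO with ⟨h1, h2⟩ | h1
  · unfold pos
    rw [h1]
    exact cr_same _ h.g0 h.g0' (hx.pos u) (hx.le1 u) (hx.le1 w) h2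
  · exact (h.g1 u w h1).le

/-- an uncovered vertex is seen from infinity, away from its own edges -/
lemma Good.base {δ : ℝ} (h : Good τ x δ) (hG : IsCyc G τ t) (hx : IsScale t x) {b : V}
    (hcov : ∀ u w, G.Adj u w → τ u = τ b → τ w = τ b → t u < t b → t b < t w → False)
    {u w : V} (hE : Ed G u w) (hO : Ori τ x u w) (hu : u ≠ b) (hw : w ≠ b) :
    ExtC (pos τ x δ u) (pos τ x δ w) (pos τ x δ b) := by
  have hcr := h.ori hx hO
  have hxu : x u ≠ x b := by
    intro e
    apply hu
    apply hG.inj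
    have h1 : ¬ t u < t b := fun h' => by have := hx.lt h'; linarith
    have h2 : ¬ t b < t u := fun h' => by have := hx.lt h'; linarith
    omega
  have hxw : x w ≠ x b := by
    intro e
    apply hw
    apply hG.inj
    have h1 : ¬ t w < t b := fun h' => by have := hx.lt h'; linarith
    have h2 : ¬ t b < t w := fun h' => by have := hx.lt h'; linarith
    omega
  by_cases hiu : τ u = τ b
  · rcases lt_or_gt_of_ne hxu with h1 | h1
    · rcases hO with ⟨h2, h3⟩ | h2
      · rcases lt_or_gt_of_ne hxw with h4 | h4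
        · exact Or.inl ⟨hcr, Or.inr (Or.inl (h.same hx ((h2.trans hiu).symm) h4))⟩
        · exfalso
          have huw : G.Adj u w := by
            rcases hE with hE | hE
            · rw [hE] at h1; linarith
            · exact hE
          exact hcov u w huw hiu (h2.trans hiu) ((hx.lt_iff hG.inj).1 h1)
            ((hx.lt_iff hG.inj).1 h4)
      · exact Or.inl ⟨hcr, Or.inr (Or.inr (h.g3 u b w hiu.symm h2 h1))⟩
    · exact Or.inl ⟨hcr, Or.inl (h.same hx hiu h1)⟩
  · by_cases hiw : τ w = τ b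
    · rcases lt_or_gt_of_ne hxw with h1 | h1
      · exact Or.inl ⟨hcr, Or.inr (Or.inl (h.same hx hiw.symm h1))⟩
      · rcases hO with ⟨h2, h3⟩ | h2
        · exact absurd (h2.symm.trans hiw) hiu
        · refine Or.inl ⟨hcr, Or.inr (Or.inr ?_)⟩
          rw [cr_sub_shift]
          exact h.g4 u w b h2 hiw.symm h1
    · exact Or.inr ⟨C m (τ b), h.g6 b, h.g5 b u hiu, h.g5 b w hiw⟩

lemma ev_seg (A B : ℝ × ℝ) {p : ℝ × ℝ → Prop} (h : ∀ᶠ z in 𝓝 A, p z) :
    ∀ᶠ ε in 𝓝[>] (0 : ℝ), p (A + ε • (B - A)) := by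
  have hc : Continuous fun ε : ℝ => A + ε • (B - A) := by fun_prop
  have h1 : Tendsto (fun ε : ℝ => A + ε • (B - A)) (𝓝[>] (0 : ℝ)) (𝓝 A) := by
    have := hc.tendsto 0
    simp only [zero_smul, add_zero] at this
    exact this.mono_left nhdsWithin_le_nhds
  exact h1.eventually h

lemma seg_mem (A B : ℝ × ℝ) {ε : ℝ} (h0 : 0 < ε) (h1 : ε < 1) :
    A + ε • (B - A) ∈ segment ℝ A B := by
  refine ⟨1 - ε, ε, by linarith, h0.le, by ring, ?_⟩
  ext
  · simp only [Prod.fst_add, Prod.smul_fst, Prod.fst_sub, smul_eq_mul]; ring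
  · simp only [Prod.snd_add, Prod.smul_snd, Prod.snd_sub, smul_eq_mul]; ring

/-- blocking at an endpoint: the general scheme -/
lemma Good.at_end [Finite V] {δ : ℝ} (h : Good τ x δ) (hG : IsCyc G τ t) (hx : IsScale t x)
    {b o : V}
    (hcov : ∀ u w, G.Adj u w → τ u = τ b → τ w = τ b → t u < t b → t b < t w → False)
    (hinc : ∀ u w, Ed G u w → Ori τ x u w → (u = b ∨ w = b) → ∀ ε : ℝ, 0 < ε → ε < 1 →
      ExtC (pos τ x δ u) (pos τ x δ w) (pos τ x δ b + ε • (pos τ x δ o - pos τ x δ b))) :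
    ∃ z ∈ segment ℝ (pos τ x δ b) (pos τ x δ o), z ≠ 0 ∧
      ∀ u w, Ed G u w → Ori τ x u w → ExtC (pos τ x δ u) (pos τ x δ w) z := by
  have e1 : ∀ᶠ ε in 𝓝[>] (0 : ℝ), ∀ u w, (Ed G u w ∧ Ori τ x u w) →
      ExtC (pos τ x δ u) (pos τ x δ w) (pos τ x δ b + ε • (pos τ x δ o - pos τ x δ b)) := by
    apply ev_forall2
    rintro u w ⟨hE, hO⟩
    by_cases hi : u = b ∨ w = b
    · filter_upwards [ev_Ioo] with ε hε
      exact hinc u w hE hO hi ε hε.1 hε.2
    · push Not at hi
      exact ev_seg _ _ (h.base hG hx hcov hE hO hi.1 hi.2).eventually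
  have e2 : ∀ᶠ ε in 𝓝[>] (0 : ℝ),
      0 < dt (C m (τ b)) (pos τ x δ b + ε • (pos τ x δ o - pos τ x δ b)) := by
    apply ev_seg _ _ (p := fun z => 0 < dt (C m (τ b)) z)
    have hc : Continuous fun z : ℝ × ℝ => dt (C m (τ b)) z := dt_cont continuous_const continuous_id
    exact hc.continuousAt.eventually_const_lt (h.g6 b)
  obtain ⟨ε, h1, h2, h3⟩ := (e1.and (e2.and ev_Ioo)).exists
  refine ⟨_, seg_mem _ _ h3.1 h3.2, ?_, fun u w hE hO => h1 u w ⟨hE, hO⟩⟩
  intro e
  rw [e] at h2
  simp [dt] at h2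

/-- blocking at the first end -/
lemma seen_E1 [Finite V] (hm : 3 ≤ m) (hG : IsCyc G τ t) (hx : IsScale t x) {a c : V}
    (hτ : τ c = τ a + 1)
    (hE1 : ∀ w, G.Adj a w → (τ w = τ a → t w < t a) ∧ (τ w = τ c → t c < t w)) :
    ∀ᶠ δ in 𝓝[>] (0 : ℝ), Seen G τ x a c δ := by
  filter_upwards [ev_good hm τ x] with δ h
  have hca : cr (pos τ x δ c) (pos τ x δ a) < 0 := by
    have := h.g1 a c hτ
    have e : cr (pos τ x δ c) (pos τ x δ a) = - cr (pos τ x δ a) (pos τ x δ c) := by
      simp only [cr]; ring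
    linarith
  obtain ⟨z, hz, hz0, hz1⟩ := h.at_end (b := a) (o := c) hG hx
    (fun u w huw hu hw h1 h2 => by
      have : G.Adj a w := hG.clo u w a w huw (hw.trans hu.symm) hu.symm (hw.trans hu.symm)
        h1.le h2 le_rfl
      have := (hE1 w this).1 hw
      omega)
    (fun u w hE hO hi ε h0 h1 => by
      have hcr := h.ori hx hO
      by_cases hw : w = a
      · refine Or.inl ⟨hcr, Or.inr (Or.inl ?_)⟩
        rw [hw]
        have e : cr (pos τ x δ a + ε • (pos τ x δ c - pos τ x δ a)) (pos τ x δ a) =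
            ε * cr (pos τ x δ c) (pos τ x δ a) := by
          simp only [cr, Prod.fst_add, Prod.snd_add, Prod.fst_sub, Prod.snd_sub, Prod.smul_fst,
            Prod.smul_snd, smul_eq_mul]
          ring
        rw [e]
        exact mul_neg_of_pos_of_neg h0 hca
      · have hu : u = a := hi.resolve_right hw
        subst hu
        have huw : G.Adj u w := hE.resolve_left (fun e => hw e.symm)
        rcases hO with ⟨h2, h3⟩ | h2
        · exfalso
          have h4 := (hE1 w huw).1 h2
          have := hx.lt h4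
          linarith
        · have h4 := (hE1 w huw).2 (h2.trans hτ.symm)
          refine Or.inl ⟨hcr, Or.inr (Or.inr ?_)⟩
          have k := h.g4 u w c h2 (hτ.trans h2.symm) (hx.lt h4)
          rw [← cr_sub_shift] at k
          have e : cr (pos τ x δ w - pos τ x δ u)
              (pos τ x δ u + ε • (pos τ x δ c - pos τ x δ u) - pos τ x δ u) =
              ε * cr (pos τ x δ w - pos τ x δ u) (pos τ x δ c - pos τ x δ u) := by
            simp only [cr, Prod.fst_add, Prod.snd_add, Prod.fst_sub, Prod.snd_sub, Prod.smul_fst,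
              Prod.smul_snd, smul_eq_mul]
            ring
          rw [e]
          exact mul_neg_of_pos_of_neg h0 k)
  exact ⟨z, hz, Or.inr ⟨hz0, hz1⟩⟩

/-- blocking at the second end -/
lemma seen_E2 [Finite V] (hm : 3 ≤ m) (hG : IsCyc G τ t) (hx : IsScale t x) {a c : V}
    (hτ : τ c = τ a + 1)
    (hE2 : ∀ w, G.Adj c w → (τ w = τ c → t c < t w) ∧ (τ w = τ a → t w < t a)) :
    ∀ᶠ δ in 𝓝[>] (0 : ℝ), Seen G τ x a c δ := by
  filter_upwards [ev_good hm τ x] with δ h
  have hca : cr (pos τ x δ c) (pos τ x δ a) < 0 := by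
    have := h.g1 a c hτ
    have e : cr (pos τ x δ c) (pos τ x δ a) = - cr (pos τ x δ a) (pos τ x δ c) := by
      simp only [cr]; ring
    linarith
  obtain ⟨z, hz, hz0, hz1⟩ := h.at_end (b := c) (o := a) hG hx
    (fun u w huw hu hw h1 h2 => by
      have : G.Adj u c := hG.clo u w u c huw (hw.trans hu.symm) rfl hu.symm
        le_rfl h1 h2.le
      have := (hE2 u this.symm).1 hu
      omega)
    (fun u w hE hO hi ε h0 h1 => by
      have hcr := h.ori hx hO
      by_cases hu : u = c
      · refine Or.inl ⟨hcr, Or.inl ?_⟩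
        rw [hu]
        have e : cr (pos τ x δ c) (pos τ x δ c + ε • (pos τ x δ a - pos τ x δ c)) =
            ε * cr (pos τ x δ c) (pos τ x δ a) := by
          simp only [cr, Prod.fst_add, Prod.snd_add, Prod.fst_sub, Prod.snd_sub, Prod.smul_fst,
            Prod.smul_snd, smul_eq_mul]
          ring
        rw [e]
        exact mul_neg_of_pos_of_neg h0 hca
      · have hw : w = c := hi.resolve_left hu
        subst hw
        have huw : G.Adj u w := hE.resolve_left hu
        rcases hO with ⟨h2, h3⟩ | h2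
        · exfalso
          have h4 := (hE2 u huw.symm).1 h2.symm
          have := hx.lt h4
          linarith
        · have hua : τ u = τ a := add_right_cancel (h2.symm.trans hτ)
          have h4 := (hE2 u huw.symm).2 hua
          refine Or.inl ⟨hcr, Or.inr (Or.inr ?_)⟩
          have k := h.g3 u a w hua.symm h2 (hx.lt h4)
          rw [cr_sub_shift] at k
          rw [cr_sub_shift]
          have e : cr (pos τ x δ w - pos τ x δ u)
              (pos τ x δ w + ε • (pos τ x δ a - pos τ x δ w) - pos τ x δ w) =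
              ε * cr (pos τ x δ w - pos τ x δ u) (pos τ x δ a - pos τ x δ w) := by
            simp only [cr, Prod.fst_add, Prod.snd_add, Prod.fst_sub, Prod.snd_sub, Prod.smul_fst,
              Prod.smul_snd, smul_eq_mul]
            ring
          rw [e]
          exact mul_neg_of_pos_of_neg h0 k)
  refine ⟨z, ?_, Or.inr ⟨hz0, hz1⟩⟩
  rw [segment_symm]
  exact hz

lemma Seen.symm {a c : V} {δ : ℝ} (h : Seen G τ x a c δ) : Seen G τ x c a δ := by
  obtain ⟨z, hz, h'⟩ := h
  refine ⟨z, ?_, h'⟩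
  rw [segment_symm]
  exact hz

lemma seen_all [Finite V] (hm : 3 ≤ m) (hG : IsCyc G τ t) (hx : IsScale t x) {a c : V}
    (hac : a ≠ c) (hn : ¬ G.Adj a c) : ∀ᶠ δ in 𝓝[>] (0 : ℝ), Seen G τ x a c δ := by
  have hn' : ¬ G.Adj c a := fun h => hn h.symm
  have beam : ∀ a c, τ c = τ a + 1 → ¬ G.Adj a c →
      ∀ᶠ δ in 𝓝[>] (0 : ℝ), Seen G τ x a c δ := by
    intro a c hτ hn
    rcases hG.beam a c hτ hn with h | h | h | h
    · exact seen_W hm hG hx hτ h.1 h.2
    · exact seen_N hm hG hx hτ h.1 h.2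
    · exact seen_E1 hm hG hx hτ h
    · exact seen_E2 hm hG hx hτ h
  by_cases h0 : τ c = τ a
  · rcases Nat.lt_trichotomy (t a) (t c) with h | h | h
    · exact seen_track hm hG hx h0 h hn
    · exact absurd (hG.inj h) hac
    · exact (seen_track hm hG hx h0.symm h hn').mono fun δ hδ => hδ.symm
  · by_cases h1 : τ c = τ a + 1
    · exact beam a c h1 hn
    · by_cases h2 : τ a = τ c + 1
      · exact (beam c a h2 hn').mono fun δ hδ => hδ.symm
      · exact seen_far hm h0 h1 h2

/-- **Main theorem.** -/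
theorem cyclic_two_obstacles [Fintype V] (hm : 3 ≤ m) (hG : IsCyc G τ t) :
    ∃ (q : V → ℝ × ℝ) (O₁ O₂ : Set (ℝ × ℝ)),
      Function.Injective q ∧ IsPreconnected O₁ ∧ IsPreconnected O₂ ∧
      (∀ v : V, q v ∉ O₁ ∪ O₂) ∧
      (∀ u v : V, u ≠ v → (G.Adj u v ↔ Disjoint (segment ℝ (q u) (q v)) (O₁ ∪ O₂))) := by
  obtain ⟨x, hx⟩ := exists_scale t
  have e1 : ∀ᶠ δ in 𝓝[>] (0 : ℝ), ∀ u w, (u ≠ w ∧ ¬ G.Adj u w) → Seen G τ x u w δ :=
    ev_forall2 _ fun u w h => seen_all hm hG hx h.1 h.2
  obtain ⟨δ, h1, h2⟩ := (e1.and (ev_good hm τ x)).exists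
  have hOr : ∀ u v, (u = v ∨ G.Adj u v) → Ori τ x u v ∨ Ori τ x v u := by
    intro u v h
    rcases h with h | h
    · subst h
      exact Or.inl (Or.inl ⟨rfl, le_rfl⟩)
    · rcases hG.adj u v h with h3 | h3 | h3
      · rcases le_total (x u) (x v) with h4 | h4
        · exact Or.inl (Or.inl ⟨h3, h4⟩)
        · exact Or.inr (Or.inl ⟨h3.symm, h4⟩)
      · exact Or.inl (Or.inr h3)
      · exact Or.inr (Or.inr h3)
  obtain ⟨O₁, O₂, hO1, hO2, hO3, hO4⟩ := two_obstacles G (pos τ x δ) (Ori τ x) hOr (by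
    intro u v huv hn
    obtain ⟨z, hz, hz'⟩ := h1 u v ⟨huv, hn⟩
    refine ⟨z, hz, ?_⟩
    rcases hz' with hz' | hz'
    · exact Or.inl fun a b hab hO => (hz' a b hab hO).inn
    · exact Or.inr ⟨hz'.1, fun a b hab hO => (hz'.2 a b hab hO).ext⟩)
  refine ⟨pos τ x δ, O₁, O₂, ?_, hO1, hO2, hO3, hO4⟩
  intro u v huv
  by_contra hne
  by_cases hτ : τ v = τ u
  · have hself : cr (pos τ x δ u) (pos τ x δ u) = 0 := by simp only [cr]; ring
    rcases Nat.lt_trichotomy (t u) (t v) with h | h | h
    · have := h2.same hx hτ (hx.lt h)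
      rw [← huv, hself] at this
      exact lt_irrefl _ this
    · exact hne (hG.inj h)
    · have := h2.same hx hτ.symm (hx.lt h)
      rw [← huv, hself] at this
      exact lt_irrefl _ this
  · have := h2.g5 u v hτ
    rw [huv] at this
    exact lt_irrefl _ this

end

end

end Pool.Agent.Helper1.Cyc
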