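import Pool.Agent.Helper1.Cyc.Vis

set_option autoImplicit false

/-!
Rotations and the regular polygon.
-/

namespace Pool.Agent.Helper1.Cyc

open Set Filter Topology Real

noncomputable section

/-- the angle -/
def ph (m : ℕ) : ℝ := 2 * π / m

/-- rotation by `k` steps -/
def R (m : ℕ) (k : ZMod m) (p : ℝ × ℝ) : ℝ × ℝ :=
  (cos (ph m * (k.val : ℕ)) * p.1 - sin (ph m * (k.val : ℕ)) * p.2,
    sin (ph m * (k.val : ℕ)) * p.1 + cos (ph m * (k.val : ℕ)) * p.2)

lemma ph_mul {m : ℕ} (hm : 3 ≤ m) : ph m * m = 2 * π := by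
  have : (m : ℝ) ≠ 0 := by
    have : 0 < m := by omega
    exact_mod_cast this.ne'
  unfold ph
  field_simp

lemma ph_pos {m : ℕ} (hm : 3 ≤ m) : 0 < ph m := by
  have h1 : (0 : ℝ) < m := by
    have : 0 < m := by omega
    exact_mod_cast this
  unfold ph
  positivity

lemma ph_three {m : ℕ} (hm : 3 ≤ m) : 3 * ph m ≤ 2 * π := by
  have h1 : (3 : ℝ) ≤ m := by exact_mod_cast hm
  have h2 := ph_mul hm
  have h3 := ph_pos hm
  nlinarith

lemma cos_mod {m : ℕ} (hm : 3 ≤ m) (n : ℕ) :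
    cos (ph m * (n % m : ℕ)) = cos (ph m * (n : ℕ)) := by
  have h := Nat.mod_add_div n m
  have e : ph m * (n : ℕ) = ph m * (n % m : ℕ) + (n / m : ℕ) * (2 * π) := by
    have h' : (n : ℝ) = (n % m : ℕ) + (m : ℝ) * (n / m : ℕ) := by exact_mod_cast h.symm
    rw [← ph_mul hm]
    rw [h']
    ring
  rw [e, cos_add_nat_mul_two_pi]

lemma sin_mod {m : ℕ} (hm : 3 ≤ m) (n : ℕ) :
    sin (ph m * (n % m : ℕ)) = sin (ph m * (n : ℕ)) := by
  have h := Nat.mod_add_div n m
  have e : ph m * (n : ℕ) = ph m * (n % m : ℕ) + (n / m : ℕ) * (2 * π) := by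
    have h' : (n : ℝ) = (n % m : ℕ) + (m : ℝ) * (n / m : ℕ) := by exact_mod_cast h.symm
    rw [← ph_mul hm]
    rw [h']
    ring
  rw [e, sin_add_nat_mul_two_pi]

lemma R_add {m : ℕ} (hm : 3 ≤ m) (i k : ZMod m) (p : ℝ × ℝ) :
    R m (i + k) p = R m i (R m k p) := by
  have : NeZero m := ⟨by omega⟩
  have e1 : cos (ph m * ((i + k).val : ℕ)) = cos (ph m * (i.val : ℕ) + ph m * (k.val : ℕ)) := by
    rw [ZMod.val_add, cos_mod hm]
    push_cast
    rw [mul_add]
  have e2 : sin (ph m * ((i + k).val : ℕ)) = sin (ph m * (i.val : ℕ) + ph m * (k.val : ℕ)) := by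
    rw [ZMod.val_add, sin_mod hm]
    push_cast
    rw [mul_add]
  unfold R
  rw [e1, e2, cos_add, sin_add]
  ext
  · simp only; ring
  · simp only; ring

lemma cr_R (m : ℕ) (k : ZMod m) (p q : ℝ × ℝ) : cr (R m k p) (R m k q) = cr p q := by
  have h := sin_sq_add_cos_sq (ph m * (k.val : ℕ))
  simp only [cr, R]
  linear_combination (p.1 * q.2 - p.2 * q.1) * h

lemma dt_R (m : ℕ) (k : ZMod m) (p q : ℝ × ℝ) : dt (R m k p) (R m k q) = dt p q := by
  have h := sin_sq_add_cos_sq (ph m * (k.val : ℕ))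
  simp only [dt, R]
  linear_combination (p.1 * q.1 + p.2 * q.2) * h

lemma R_sub (m : ℕ) (k : ZMod m) (p q : ℝ × ℝ) : R m k (p - q) = R m k p - R m k q := by
  ext
  · simp only [R, Prod.fst_sub, Prod.snd_sub]; ring
  · simp only [R, Prod.fst_sub, Prod.snd_sub]; ring

lemma R_padd (m : ℕ) (k : ZMod m) (p q : ℝ × ℝ) : R m k (p + q) = R m k p + R m k q := by
  ext
  · simp only [R, Prod.fst_add, Prod.snd_add]; ring
  · simp only [R, Prod.fst_add, Prod.snd_add]; ring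

lemma R_smul (m : ℕ) (k : ZMod m) (a : ℝ) (p : ℝ × ℝ) : R m k (a • p) = a • R m k p := by
  ext
  · simp only [R, Prod.smul_fst, Prod.smul_snd, smul_eq_mul]; ring
  · simp only [R, Prod.smul_fst, Prod.smul_snd, smul_eq_mul]; ring

lemma R_cont (m : ℕ) (k : ZMod m) : Continuous (R m k) := by
  unfold R; fun_prop

lemma R_inj (m : ℕ) (k : ZMod m) {p q : ℝ × ℝ} (h : R m k p = R m k q) : p = q := by
  have h1 : R m k (p - q) = 0 := by rw [R_sub, h, sub_self]
  have h2 : dt (p - q) (p - q) = 0 := by rw [← dt_R m k, h1]; simp [dt]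
  have h3 : (p - q).1 * (p - q).1 + (p - q).2 * (p - q).2 = 0 := h2
  have h4 := mul_self_nonneg (p - q).1
  have h5 := mul_self_nonneg (p - q).2
  have h6 : (p - q).1 = 0 := mul_self_eq_zero.1 (by linarith)
  have h7 : (p - q).2 = 0 := mul_self_eq_zero.1 (by linarith)
  exact sub_eq_zero.1 (Prod.ext h6 h7)

lemma R_one {m : ℕ} (hm : 3 ≤ m) (p : ℝ × ℝ) : R m 1 p =
    (cos (ph m) * p.1 - sin (ph m) * p.2, sin (ph m) * p.1 + cos (ph m) * p.2) := by
  have : Fact (1 < m) := ⟨by omega⟩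
  unfold R
  rw [ZMod.val_one]
  simp

lemma sin_ph_pos {m : ℕ} (hm : 3 ≤ m) : 0 < sin (ph m) := by
  apply sin_pos_of_pos_of_lt_pi (ph_pos hm)
  have := ph_three hm
  have := pi_pos
  linarith

/-- cosines of all angles strictly between `a` and `2π - a` -/
lemma cos_lt_of {a b : ℝ} (h0 : 0 ≤ a) (h1 : a < b) (h2 : b < 2 * π - a) : cos b < cos a := by
  rcases le_or_gt b π with h | h
  · exact cos_lt_cos_of_nonneg_of_le_pi h0 h h1
  · have e : cos b = cos (2 * π - b) := by rw [cos_two_pi_sub]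
    rw [e]
    exact cos_lt_cos_of_nonneg_of_le_pi h0 (by linarith) (by linarith)

lemma cos_ph_lt {m : ℕ} (hm : 3 ≤ m) : cos (ph m) < 1 := by
  have h := cos_lt_of (a := 0) (b := ph m) le_rfl (ph_pos hm)
    (by have := ph_three hm; have := pi_pos; have := ph_pos hm; linarith)
  rwa [cos_zero] at h

/-- the corners -/
def C (m : ℕ) (k : ZMod m) : ℝ × ℝ := R m k (1, 0)

/-- the normals -/
def N (m : ℕ) (k : ZMod m) : ℝ × ℝ := R m k (cos (ph m / 2), sin (ph m / 2))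

/-- distance of the sides -/
def hh (m : ℕ) : ℝ := cos (ph m / 2)

lemma hh_pos {m : ℕ} (hm : 3 ≤ m) : 0 < hh m := by
  apply cos_pos_of_mem_Ioo
  have h1 := ph_pos hm
  have h2 := ph_three hm
  have h3 := pi_pos
  constructor
  · linarith
  · linarith

lemma C_self {m : ℕ} (k : ZMod m) : dt (C m k) (C m k) = 1 := by
  unfold C
  rw [dt_R]
  simp [dt]

lemma C_lt {m : ℕ} (hm : 3 ≤ m) {i j : ZMod m} (h : i ≠ j) : dt (C m i) (C m j) < 1 := by
  have : NeZero m := ⟨by omega⟩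
  have e : j = i + (j - i) := by ring
  rw [e]
  unfold C
  rw [R_add hm, dt_R]
  set k := j - i with hk
  have hk0 : k ≠ 0 := by
    rw [hk]
    exact sub_ne_zero.2 (Ne.symm h)
  have hv : 0 < k.val := ZMod.val_pos.2 hk0
  have hv2 : k.val < m := ZMod.val_lt k
  have e2 : dt (1, 0) (R m k (1, 0)) = cos (ph m * (k.val : ℕ)) := by simp [dt, R]
  rw [e2]
  have h1 := ph_pos hm
  have h2 := ph_mul hm
  have h3 : (0 : ℝ) < (k.val : ℕ) := by exact_mod_cast hv
  have h4 : ((k.val : ℕ) : ℝ) < m := by exact_mod_cast hv2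
  have h := cos_lt_of (a := 0) (b := ph m * (k.val : ℕ)) le_rfl (mul_pos h1 h3)
    (by nlinarith)
  rwa [cos_zero] at h

lemma N_C {m : ℕ} (hm : 3 ≤ m) (i k : ZMod m) :
    dt (N m i) (C m (i + k)) = cos (ph m * (k.val : ℕ) - ph m / 2) := by
  unfold N C
  rw [R_add hm, dt_R, cos_sub]
  simp [dt, R]
  ring

lemma N_zero {m : ℕ} (hm : 3 ≤ m) (i : ZMod m) : dt (N m i) (C m i) = hh m := by
  have := N_C hm i 0
  rw [add_zero] at this
  rw [this]
  unfold hh
  rw [ZMod.val_zero]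
  simp

lemma N_one {m : ℕ} (hm : 3 ≤ m) (i : ZMod m) : dt (N m i) (C m (i + 1)) = hh m := by
  have : Fact (1 < m) := ⟨by omega⟩
  rw [N_C hm i 1]
  unfold hh
  rw [ZMod.val_one]
  congr 1
  push_cast
  ring

lemma N_lt {m : ℕ} (hm : 3 ≤ m) {i j : ZMod m} (h0 : j ≠ i) (h1 : j ≠ i + 1) :
    dt (N m i) (C m j) < hh m := by
  have : NeZero m := ⟨by omega⟩
  have : Fact (1 < m) := ⟨by omega⟩
  have e : j = i + (j - i) := by ring
  rw [e, N_C hm]
  set k := j - i with hk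
  have hk0 : k ≠ 0 := by
    rw [hk]; exact sub_ne_zero.2 h0
  have hk1 : k ≠ 1 := by
    intro h
    apply h1
    rw [e, h]
  have hv0 : 0 < k.val := ZMod.val_pos.2 hk0
  have hv1 : k.val ≠ 1 := by
    intro h
    apply hk1
    have := ZMod.natCast_zmod_val k
    rw [h] at this
    rw [← this]
    simp
  have hv2 : k.val < m := ZMod.val_lt k
  have h3 : (2 : ℝ) ≤ (k.val : ℕ) := by
    have : 2 ≤ k.val := by omega
    exact_mod_cast this
  have h4 : ((k.val : ℕ) : ℝ) + 1 ≤ m := by exact_mod_cast hv2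
  have h5 := ph_pos hm
  have h6 := ph_mul hm
  unfold hh
  apply cos_lt_of
  · linarith
  · nlinarith
  · nlinarith

lemma N_le {m : ℕ} (hm : 3 ≤ m) (i j : ZMod m) : dt (N m i) (C m j) ≤ hh m := by
  by_cases h0 : j = i
  · rw [h0]; exact (N_zero hm i).le
  · by_cases h1 : j = i + 1
    · rw [h1]; exact (N_one hm i).le
    · exact (N_lt hm h0 h1).le

lemma two_ne {m : ℕ} (hm : 3 ≤ m) : (2 : ZMod m) ≠ 0 := by
  have : NeZero m := ⟨by omega⟩
  intro h
  have h1 : ((2 : ℕ) : ZMod m) = 0 := by exact_mod_cast h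
  rw [ZMod.natCast_eq_zero_iff] at h1
  have := Nat.le_of_dvd (by norm_num) h1
  omega

lemma one_ne {m : ℕ} (hm : 3 ≤ m) : (1 : ZMod m) ≠ 0 := by
  have : Fact (1 < m) := ⟨by omega⟩
  exact one_ne_zero

lemma dt_comb (n p q : ℝ × ℝ) (α β : ℝ) : dt n (α • p + β • q) = α * dt n p + β * dt n q := by
  simp only [dt, Prod.fst_add, Prod.snd_add, Prod.smul_fst, Prod.smul_snd, smul_eq_mul]
  ring

/-- an interior point of a chord or of the side `i` is strictly on the inner side of `j` -/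
lemma N_comb {m : ℕ} (hm : 3 ≤ m) {i k j : ZMod m} {α β : ℝ} (hα : 0 < α) (hβ : 0 < β)
    (hab : α + β = 1) (h : ¬ ((i = j ∨ i = j + 1) ∧ (k = j ∨ k = j + 1))) :
    dt (N m j) (α • C m i + β • C m k) < hh m := by
  rw [dt_comb]
  have h1 := N_le hm j i
  have h2 := N_le hm j k
  have e : α * hh m + β * hh m = hh m := by rw [← add_mul, hab, one_mul]
  have k1 := mul_le_mul_of_nonneg_left h1 hα.le
  have k2 := mul_le_mul_of_nonneg_left h2 hβ.le
  by_cases hi : i = j ∨ i = j + 1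
  · have hk : ¬ (k = j ∨ k = j + 1) := fun hk => h ⟨hi, hk⟩
    push Not at hk
    have := mul_lt_mul_of_pos_left (N_lt hm hk.1 hk.2) hβ
    linarith
  · push Not at hi
    have := mul_lt_mul_of_pos_left (N_lt hm hi.1 hi.2) hα
    linarith

end

end Pool.Agent.Helper1.Cyc
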