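import Mathlib

set_option autoImplicit false

/-!
The coordinates: quickly growing, with decreasing logarithmic increments.
-/

namespace Pool.Agent.Helper1.Cyc

/-- `1, 1/8, ...`, each the square of the former divided by 8 -/
noncomputable def sc : ℕ → ℝ
  | 0 => 1
  | n + 1 => sc n ^ 2 / 8

lemma sc_pos (n : ℕ) : 0 < sc n := by
  induction n with
  | zero => simp [sc]
  | succ n ih => simp only [sc]; positivity

lemma sc_le (n : ℕ) : sc n ≤ 1 := by
  induction n with
  | zero => simp [sc]
  | succ n ih =>
    have := sc_pos n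
    simp only [sc]
    nlinarith

lemma sc_step {a b : ℕ} (h : a < b) : sc b ≤ sc a ^ 2 / 8 := by
  induction b with
  | zero => omega
  | succ b ih =>
    rcases Nat.lt_succ_iff_lt_or_eq.1 h with h' | h'
    · have h1 := ih h'
      have h2 := sc_pos b
      have h3 := sc_le b
      have h4 : sc (b + 1) = sc b ^ 2 / 8 := rfl
      rw [h4]
      nlinarith
    · subst h'
      exact le_rfl

/-- the properties of the coordinates -/
structure IsScale {V : Type} (t : V → ℕ) (x : V → ℝ) : Prop where
  pos : ∀ v, 0 < x v
  le1 : ∀ v, x v ≤ 1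
  step : ∀ u v, t u < t v → x u ≤ x v ^ 2 / 8

theorem exists_scale {V : Type} [Finite V] (t : V → ℕ) : ∃ x : V → ℝ, IsScale t x := by
  obtain ⟨N, hN⟩ := (Set.finite_range t).bddAbove
  have hN' : ∀ v, t v ≤ N := fun v => hN (Set.mem_range_self v)
  refine ⟨fun v => sc (N - t v), fun v => sc_pos _, fun v => sc_le _, ?_⟩
  intro u v h
  have := hN' v
  exact sc_step (by omega)

section
variable {V : Type} {t : V → ℕ} {x : V → ℝ}

lemma IsScale.lt8 (h : IsScale t x) {u v : V} (huv : t u < t v) : 8 * x u ≤ x v := by
  have h1 := h.step u v huv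
  have h2 := h.pos v
  have h3 := h.le1 v
  nlinarith

lemma IsScale.lt (h : IsScale t x) {u v : V} (huv : t u < t v) : x u < x v := by
  have h1 := h.lt8 huv
  have h2 := h.pos u
  linarith

lemma IsScale.lt_iff (h : IsScale t x) (hi : Function.Injective t) {u v : V} :
    x u < x v ↔ t u < t v := by
  constructor
  · intro h1
    rcases Nat.lt_trichotomy (t u) (t v) with h2 | h2 | h2
    · exact h2
    · have e := hi h2
      subst e
      exact absurd h1 (lt_irrefl _)
    · have := h.lt h2; linarith
  · exact h.lt

lemma IsScale.le_iff (h : IsScale t x) (hi : Function.Injective t) {u v : V} :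
    x u ≤ x v ↔ t u ≤ t v := by
  rw [← not_lt, ← not_lt, h.lt_iff hi]

/-- the hull lemma -/
theorem IsScale.hull (h : IsScale t x) (hi : Function.Injective t) {a c a' c' : V}
    (hac : t a < t c) (hne : t a' ≠ t c) (hn : t a' ≤ t a → t c' < t c) :
    2 * x a * x c' < (x a' + x a) * x c := by
  have pa := h.pos a
  have pc := h.pos c
  have pa' := h.pos a'
  have pc' := h.pos c'
  have lc := h.le1 c
  have la' := h.le1 a'
  have lc' := h.le1 c'
  rcases Nat.lt_trichotomy (t c') (t c) with h1 | h1 | h1
  · have h2 := h.lt8 h1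
    nlinarith [mul_pos pa pc, mul_pos pa' pc, mul_le_mul_of_nonneg_left h2 pa.le]
  · have e := hi h1
    subst e
    have h2 : t a < t a' := by
      by_contra hcon
      have := hn (by omega)
      omega
    have h3 := h.lt h2
    nlinarith [mul_lt_mul_of_pos_right h3 pc]
  · have h2 : t a < t a' := by
      by_contra hcon
      have := hn (by omega)
      omega
    have h3 := h.step a a' h2
    rcases Nat.lt_or_ge (t a') (t c) with h4 | h4
    · have h5 := h.step a' c h4
      have k1 : 2 * x a * x c' ≤ 2 * x a := by nlinarith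
      have k2 : 2 * x a ≤ x a' * x a' / 4 := by nlinarith
      have k3 : x a' * x a' ≤ x a' * (x c ^ 2 / 8) := mul_le_mul_of_nonneg_left h5 pa'.le
      have k4 : x a' * (x c ^ 2 / 8) ≤ x a' * x c / 8 := by
        have : x c ^ 2 ≤ x c := by nlinarith
        nlinarith
      have k5 := mul_pos pa' pc
      have k6 := mul_pos pa pc
      nlinarith
    · have h5 : t c < t a' := by omega
      have h6 := h.lt8 h5
      have h7 := h.step a c hac
      have k1 : 2 * x a * x c' ≤ 2 * x a := by nlinarith
      have k2 : 2 * x a ≤ x c * x c / 4 := by nlinarith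
      have k3 : x c * x c ≤ x c * x a' := mul_le_mul_of_nonneg_left (by linarith) pc.le
      have k5 := mul_pos pa' pc
      have k6 := mul_pos pa pc
      nlinarith

/-- heights of chords of a track -/
theorem IsScale.chord (h : IsScale t x) {a b c d : V} (hac : x a ≤ x c) (hbd : t b < t d) :
    0 < ((x c + x d) * (2 * x c) - x c * x d) - ((x a + x b) * (2 * x c) - x a * x b) := by
  have pa := h.pos a
  have pc := h.pos c
  have pb := h.pos b
  have h1 := h.lt8 hbd
  nlinarith [mul_nonneg pc.le (sub_nonneg.2 hac), mul_le_mul_of_nonneg_left h1 pc.le,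
    mul_pos pa pb, mul_pos pc pb]

end

end Pool.Agent.Helper1.Cyc
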