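import Mathlib

set_option autoImplicit false

/-!
Two-obstacle criterion: every non-edge contains a point that is seen from the origin or from
infinity (along the ray through the point).
-/

namespace Pool.Agent.Helper1.Cyc

open Set Filter Topology

/-- cross product -/
def cr (a b : ℝ × ℝ) : ℝ := a.1 * b.2 - a.2 * b.1

/-- dot product -/
def dt (a b : ℝ × ℝ) : ℝ := a.1 * b.1 + a.2 * b.2

/-- the segment from the origin to `m` misses `[A,B]` -/
def Inn (A B m : ℝ × ℝ) : Prop := ∀ s : ℝ, 0 ≤ s → s ≤ 1 → s • m ∉ segment ℝ A B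

/-- the outer ray at `m` misses `[A,B]` -/
def Ext (A B m : ℝ × ℝ) : Prop := ∀ s : ℝ, 1 ≤ s → s • m ∉ segment ℝ A B

lemma Inn.symm {A B m : ℝ × ℝ} (h : Inn A B m) : Inn B A m := by
  intro s h0 h1
  rw [segment_symm]
  exact h s h0 h1

lemma Ext.symm {A B m : ℝ × ℝ} (h : Ext A B m) : Ext B A m := by
  intro s h1
  rw [segment_symm]
  exact h s h1

/-- certificate for `Inn` -/
def InnC (A B m : ℝ × ℝ) : Prop :=
  (0 < cr A B ∧ 0 < cr (B - A) (m - A)) ∨
    ∃ n : ℝ × ℝ, 0 < dt n A ∧ 0 < dt n B ∧ dt n m < dt n A ∧ dt n m < dt n B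

/-- certificate for `Ext` -/
def ExtC (A B m : ℝ × ℝ) : Prop :=
  (0 ≤ cr A B ∧ (cr A m < 0 ∨ cr m B < 0 ∨ cr (B - A) (m - A) < 0)) ∨
    ∃ n : ℝ × ℝ, 0 < dt n m ∧ dt n A < dt n m ∧ dt n B < dt n m

lemma comb_lt {a b x y M : ℝ} (ha : 0 ≤ a) (hb : 0 ≤ b) (hab : a + b = 1) (hx : x < M)
    (hy : y < M) : a * x + b * y < M := by
  rcases eq_or_lt_of_le ha with h | h
  · subst h
    have : b = 1 := by linarith
    subst this
    linarith
  · have h1 := mul_lt_mul_of_pos_left hx h
    have h2 := mul_le_mul_of_nonneg_left hy.le hb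
    have e : a * M + b * M = M := by rw [← add_mul, hab, one_mul]
    linarith

lemma InnC.inn {A B m : ℝ × ℝ} (h : InnC A B m) : Inn A B m := by
  intro s h0 h1 hs
  obtain ⟨a, b, ha, hb, hab, he⟩ := hs
  have e1 : a * A.1 + b * B.1 = s * m.1 := by
    have := congrArg Prod.fst he
    simpa using this
  have e2 : a * A.2 + b * B.2 = s * m.2 := by
    have := congrArg Prod.snd he
    simpa using this
  rcases h with ⟨h2, h3⟩ | ⟨n, h2, h3, h4, h5⟩
  · have ea : a = 1 - b := by linarith
    subst ea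
    have k1 : cr (B - A) (s • m - A) = s * cr (B - A) (m - A) + (1 - s) * cr A B := by
      simp only [cr, Prod.fst_sub, Prod.snd_sub, Prod.smul_fst, Prod.smul_snd, smul_eq_mul]
      ring
    have k2 : cr (B - A) (s • m - A) = 0 := by
      simp only [cr, Prod.fst_sub, Prod.snd_sub, Prod.smul_fst, Prod.smul_snd, smul_eq_mul]
      rw [← e1, ← e2]
      ring
    rw [k2] at k1
    rcases eq_or_lt_of_le h0 with h | h
    · subst h; linarith
    · have := mul_pos h h3
      have := mul_nonneg (sub_nonneg.2 h1) h2.le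
      linarith
  · have k1 : dt n (s • m) = a * dt n A + b * dt n B := by
      simp only [dt, Prod.smul_fst, Prod.smul_snd, smul_eq_mul]
      rw [← e1, ← e2]
      ring
    have k2 : dt n (s • m) = s * dt n m := by
      simp only [dt, Prod.smul_fst, Prod.smul_snd, smul_eq_mul]
      ring
    have k3 : s * dt n m ≤ max 0 (dt n m) := by
      rcases le_or_gt 0 (dt n m) with h | h
      · exact le_trans (mul_le_of_le_one_left h h1) (le_max_right _ _)
      · exact le_trans (mul_nonpos_of_nonneg_of_nonpos h0 h.le) (le_max_left _ _)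
    have k4 : -(a * dt n A + b * dt n B) < - max 0 (dt n m) := by
      have := comb_lt (M := - max 0 (dt n m)) ha hb hab (x := - dt n A) (y := - dt n B)
        (neg_lt_neg (max_lt h2 h4)) (neg_lt_neg (max_lt h3 h5))
      linarith
    linarith

lemma ExtC.ext {A B m : ℝ × ℝ} (h : ExtC A B m) : Ext A B m := by
  intro s h1 hs
  obtain ⟨a, b, ha, hb, hab, he⟩ := hs
  have e1 : a * A.1 + b * B.1 = s * m.1 := by
    have := congrArg Prod.fst he
    simpa using this
  have e2 : a * A.2 + b * B.2 = s * m.2 := by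
    have := congrArg Prod.snd he
    simpa using this
  have hs0 : 0 < s := by linarith
  rcases h with ⟨h2, h3⟩ | ⟨n, h2, h3, h4⟩
  · rcases h3 with h3 | h3 | h3
    · have k1 : s * cr A m = b * cr A B := by
        have : s * cr A m = A.1 * (s * m.2) - A.2 * (s * m.1) := by simp only [cr]; ring
        rw [this, ← e1, ← e2]
        simp only [cr]
        ring
      have := mul_nonneg hb h2
      have := mul_neg_of_pos_of_neg hs0 h3
      linarith
    · have k1 : s * cr m B = a * cr A B := by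
        have : s * cr m B = (s * m.1) * B.2 - (s * m.2) * B.1 := by simp only [cr]; ring
        rw [this, ← e1, ← e2]
        simp only [cr]
        ring
      have := mul_nonneg ha h2
      have := mul_neg_of_pos_of_neg hs0 h3
      linarith
    · have ea : a = 1 - b := by linarith
      subst ea
      have k1 : cr (B - A) (s • m - A) = s * cr (B - A) (m - A) + (1 - s) * cr A B := by
        simp only [cr, Prod.fst_sub, Prod.snd_sub, Prod.smul_fst, Prod.smul_snd, smul_eq_mul]
        ring
      have k2 : cr (B - A) (s • m - A) = 0 := by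
        simp only [cr, Prod.fst_sub, Prod.snd_sub, Prod.smul_fst, Prod.smul_snd, smul_eq_mul]
        rw [← e1, ← e2]
        ring
      rw [k2] at k1
      have := mul_neg_of_pos_of_neg hs0 h3
      have := mul_nonneg (sub_nonneg.2 h1) h2
      linarith
  · have k1 : dt n (s • m) = a * dt n A + b * dt n B := by
      simp only [dt, Prod.smul_fst, Prod.smul_snd, smul_eq_mul]
      rw [← e1, ← e2]
      ring
    have k2 : dt n (s • m) = s * dt n m := by
      simp only [dt, Prod.smul_fst, Prod.smul_snd, smul_eq_mul]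
      ring
    have k3 : dt n m ≤ s * dt n m := le_mul_of_one_le_left h2.le h1
    have k4 := comb_lt ha hb hab h3 h4
    linarith

lemma cr_cont {f g : ℝ × ℝ → ℝ × ℝ} (hf : Continuous f) (hg : Continuous g) :
    Continuous fun z => cr (f z) (g z) := by
  unfold cr; fun_prop

lemma dt_cont {f g : ℝ × ℝ → ℝ × ℝ} (hf : Continuous f) (hg : Continuous g) :
    Continuous fun z => dt (f z) (g z) := by
  unfold dt; fun_prop

lemma ExtC.eventually {A B m : ℝ × ℝ} (h : ExtC A B m) : ∀ᶠ z in 𝓝 m, ExtC A B z := by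
  rcases h with ⟨h2, h3⟩ | ⟨n, h2, h3, h4⟩
  · rcases h3 with h3 | h3 | h3
    · have := (cr_cont (f := fun _ => A) (g := fun z => z) continuous_const
        continuous_id).continuousAt.eventually_lt_const h3
      exact this.mono fun z hz => Or.inl ⟨h2, Or.inl hz⟩
    · have := (cr_cont (f := fun z => z) (g := fun _ => B) continuous_id
        continuous_const).continuousAt.eventually_lt_const h3
      exact this.mono fun z hz => Or.inl ⟨h2, Or.inr (Or.inl hz)⟩
    · have := (cr_cont (f := fun _ => B - A) (g := fun z => z - A) continuous_const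
        (by fun_prop)).continuousAt.eventually_lt_const h3
      exact this.mono fun z hz => Or.inl ⟨h2, Or.inr (Or.inr hz)⟩
  · have c : Continuous fun z : ℝ × ℝ => dt n z := dt_cont continuous_const continuous_id
    have e1 := c.continuousAt.eventually_const_lt h2
    have e2 := c.continuousAt.eventually_const_lt h3
    have e3 := c.continuousAt.eventually_const_lt h4
    filter_upwards [e1, e2, e3] with z h5 h6 h7
    exact Or.inr ⟨n, h5, h6, h7⟩

/-- the drawing -/
def Dr {V : Type} (G : SimpleGraph V) (q : V → ℝ × ℝ) : Set (ℝ × ℝ) :=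
  {z | ∃ u v, (u = v ∨ G.Adj u v) ∧ z ∈ segment ℝ (q u) (q v)}

lemma comb_bd {a b x y M : ℝ} (ha : 0 ≤ a) (hb : 0 ≤ b) (hab : a + b = 1) (hx : |x| ≤ M)
    (hy : |y| ≤ M) : |a * x + b * y| ≤ M := by
  have e : a * M + b * M = M := by rw [← add_mul, hab, one_mul]
  have h1 := mul_le_mul_of_nonneg_left hx ha
  have h2 := mul_le_mul_of_nonneg_left hy hb
  calc |a * x + b * y| ≤ |a * x| + |b * y| := abs_add_le _ _
    _ = a * |x| + b * |y| := by rw [abs_mul, abs_mul, abs_of_nonneg ha, abs_of_nonneg hb]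
    _ ≤ M := by linarith

/-- the frame -/
def Fr (M : ℝ) : Set (ℝ × ℝ) := {z | M < |z.1| ∨ M < |z.2|}

lemma Fr_preconnected {M : ℝ} (_hM : 0 ≤ M) : IsPreconnected (Fr M) := by
  have hN : Convex ℝ {z : ℝ × ℝ | M < z.1} := by
    intro z hz w hw a b ha hb hab
    simp only [Set.mem_ofPred_eq, Prod.fst_add, Prod.smul_fst, smul_eq_mul] at *
    have := comb_lt ha hb hab (neg_lt_neg hz) (neg_lt_neg hw)
    linarith
  have hS : Convex ℝ {z : ℝ × ℝ | z.1 < -M} := by
    intro z hz w hw a b ha hb hab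
    simp only [Set.mem_ofPred_eq, Prod.fst_add, Prod.smul_fst, smul_eq_mul] at *
    exact comb_lt ha hb hab hz hw
  have hE : Convex ℝ {z : ℝ × ℝ | M < z.2} := by
    intro z hz w hw a b ha hb hab
    simp only [Set.mem_ofPred_eq, Prod.snd_add, Prod.smul_snd, smul_eq_mul] at *
    have := comb_lt ha hb hab (neg_lt_neg hz) (neg_lt_neg hw)
    linarith
  have hW : Convex ℝ {z : ℝ × ℝ | z.2 < -M} := by
    intro z hz w hw a b ha hb hab
    simp only [Set.mem_ofPred_eq, Prod.snd_add, Prod.smul_snd, smul_eq_mul] at *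
    exact comb_lt ha hb hab hz hw
  have e : Fr M = (({z : ℝ × ℝ | M < z.1} ∪ {z : ℝ × ℝ | M < z.2}) ∪ {z : ℝ × ℝ | z.1 < -M}) ∪
      {z : ℝ × ℝ | z.2 < -M} := by
    ext z
    simp only [Fr, Set.mem_ofPred_eq, Set.mem_union, lt_abs]
    constructor
    · rintro ((h | h) | (h | h))
      · exact Or.inl (Or.inl (Or.inl h))
      · exact Or.inl (Or.inr (by linarith))
      · exact Or.inl (Or.inl (Or.inr h))
      · exact Or.inr (by linarith)
    · rintro (((h | h) | h) | h)
      · exact Or.inl (Or.inl h)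
      · exact Or.inr (Or.inl h)
      · exact Or.inl (Or.inr (by linarith))
      · exact Or.inr (Or.inr (by linarith))
  rw [e]
  have k1 : IsPreconnected ({z : ℝ × ℝ | M < z.1} ∪ {z : ℝ × ℝ | M < z.2}) :=
    IsPreconnected.union (M + 1, M + 1) (by simp) (by simp) hN.isPreconnected hE.isPreconnected
  have k2 := IsPreconnected.union (-M - 1, M + 1) (Or.inr (by simp))
    (by simp only [Set.mem_ofPred_eq]; linarith) k1 hS.isPreconnected
  exact IsPreconnected.union (-M - 1, -M - 1)
    (Or.inr (by simp only [Set.mem_ofPred_eq]; linarith))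
    (by simp only [Set.mem_ofPred_eq]; linarith) k2 hW.isPreconnected

theorem two_obstacles {V : Type} [Fintype V] (G : SimpleGraph V) (q : V → ℝ × ℝ)
    (Or' : V → V → Prop) (hOr : ∀ u v, (u = v ∨ G.Adj u v) → Or' u v ∨ Or' v u)
    (H : ∀ u v, u ≠ v → ¬ G.Adj u v → ∃ m ∈ segment ℝ (q u) (q v),
      (∀ a b, (a = b ∨ G.Adj a b) → Or' a b → Inn (q a) (q b) m) ∨
        (m ≠ 0 ∧ ∀ a b, (a = b ∨ G.Adj a b) → Or' a b → Ext (q a) (q b) m)) :
    ∃ O₁ O₂ : Set (ℝ × ℝ), IsPreconnected O₁ ∧ IsPreconnected O₂ ∧ (∀ v, q v ∉ O₁ ∪ O₂) ∧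
      ∀ u v, u ≠ v → (G.Adj u v ↔ Disjoint (segment ℝ (q u) (q v)) (O₁ ∪ O₂)) := by
  classical
  obtain ⟨M0, hM0⟩ := (Finset.univ.image (fun v : V => max |(q v).1| |(q v).2|)).exists_le
  set M := max M0 0 with hMdef
  have hM : ∀ v, |(q v).1| ≤ M ∧ |(q v).2| ≤ M := by
    intro v
    have := hM0 _ (Finset.mem_image_of_mem _ (Finset.mem_univ v))
    have h1 := le_max_left |(q v).1| |(q v).2|
    have h2 := le_max_right |(q v).1| |(q v).2|
    have h3 := le_max_left M0 0
    constructor <;> linarith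
  have hM' : 0 ≤ M := le_max_right _ _
  have hbd : ∀ z ∈ Dr G q, |z.1| ≤ M ∧ |z.2| ≤ M := by
    rintro z ⟨u, v, _, a, b, ha, hb, hab, rfl⟩
    simp only [Prod.fst_add, Prod.snd_add, Prod.smul_fst, Prod.smul_snd, smul_eq_mul]
    exact ⟨comb_bd ha hb hab (hM u).1 (hM v).1, comb_bd ha hb hab (hM u).2 (hM v).2⟩
  have hFr : ∀ z ∈ Fr M, ∀ s : ℝ, 1 ≤ s → s • z ∈ Fr M := by
    intro z hz s hs
    rcases hz with hz | hz
    · left
      simp only [Prod.smul_fst, smul_eq_mul, abs_mul]
      rw [abs_of_nonneg (by linarith : (0 : ℝ) ≤ s)]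
      exact lt_of_lt_of_le hz (le_mul_of_one_le_left (abs_nonneg _) hs)
    · right
      simp only [Prod.smul_snd, smul_eq_mul, abs_mul]
      rw [abs_of_nonneg (by linarith : (0 : ℝ) ≤ s)]
      exact lt_of_lt_of_le hz (le_mul_of_one_le_left (abs_nonneg _) hs)
  have hFrD : ∀ z ∈ Fr M, z ∉ Dr G q := by
    intro z hz hD
    have := hbd z hD
    rcases hz with hz | hz
    · linarith
    · linarith
  set O₁ : Set (ℝ × ℝ) := {z | z ≠ 0 ∧ ∀ s : ℝ, 1 ≤ s → s • z ∉ Dr G q} with hO1
  set O₂ : Set (ℝ × ℝ) := {z | ∀ s : ℝ, 0 ≤ s → s ≤ 1 → s • z ∉ Dr G q} with hO2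
  have hF1 : Fr M ⊆ O₁ := by
    intro z hz
    refine ⟨?_, fun s hs => hFrD _ (hFr z hz s hs)⟩
    rintro rfl
    rcases hz with hz | hz
    · simp at hz; linarith
    · simp at hz; linarith
  have hc1 : IsPreconnected O₁ := by
    have hb : ((M + 1, 0) : ℝ × ℝ) ∈ Fr M := by
      left
      change M < |M + 1|
      rw [abs_of_nonneg (by linarith)]; linarith
    refine isPreconnected_of_forall ((M + 1, 0) : ℝ × ℝ) ?_
    intro z hz
    have hray : IsPreconnected ((fun s : ℝ => s • z) '' Set.Ici 1) :=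
      isPreconnected_Ici.image _ (by fun_prop)
    -- a far point of the ray
    obtain ⟨s0, hs0, hs1⟩ : ∃ s0 : ℝ, 1 ≤ s0 ∧ s0 • z ∈ Fr M := by
      have hz0 := hz.1
      have : z.1 ≠ 0 ∨ z.2 ≠ 0 := by
        by_contra hcon
        push Not at hcon
        exact hz0 (Prod.ext hcon.1 hcon.2)
      rcases this with h | h
      · have hp := abs_pos.2 h
        refine ⟨max 1 ((M + 1) / |z.1|), le_max_left _ _, Or.inl ?_⟩
        simp only [Prod.smul_fst, smul_eq_mul, abs_mul]
        rw [abs_of_nonneg (le_trans zero_le_one (le_max_left _ _))]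
        have : (M + 1) / |z.1| * |z.1| = M + 1 := by field_simp
        have h3 := mul_le_mul_of_nonneg_right (le_max_right (1 : ℝ) ((M + 1) / |z.1|)) hp.le
        linarith
      · have hp := abs_pos.2 h
        refine ⟨max 1 ((M + 1) / |z.2|), le_max_left _ _, Or.inr ?_⟩
        simp only [Prod.smul_snd, smul_eq_mul, abs_mul]
        rw [abs_of_nonneg (le_trans zero_le_one (le_max_left _ _))]
        have : (M + 1) / |z.2| * |z.2| = M + 1 := by field_simp
        have h3 := mul_le_mul_of_nonneg_right (le_max_right (1 : ℝ) ((M + 1) / |z.2|)) hp.le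
        linarith
    refine ⟨Fr M ∪ ((fun s : ℝ => s • z) '' Set.Ici 1), ?_, Or.inl hb, Or.inr ?_, ?_⟩
    · rintro w (hw | ⟨s, hs, rfl⟩)
      · exact hF1 hw
      · have hs' : 1 ≤ s := hs
        refine ⟨smul_ne_zero (by linarith) hz.1, fun r hr => ?_⟩
        change r • s • z ∉ Dr G q
        rw [smul_smul]
        exact hz.2 _ (by nlinarith)
    · exact ⟨1, by simp, by simp⟩
    · exact IsPreconnected.union (s0 • z) hs1 ⟨s0, hs0, rfl⟩ (Fr_preconnected hM') hray
  have hc2 : IsPreconnected O₂ := by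
    refine isPreconnected_of_forall (0 : ℝ × ℝ) ?_
    intro z hz
    refine ⟨(fun s : ℝ => s • z) '' Set.Icc 0 1, ?_, ⟨0, by simp, by simp⟩, ⟨1, by simp, by simp⟩,
      isPreconnected_Icc.image _ (by fun_prop)⟩
    rintro w ⟨s, hs, rfl⟩ r hr0 hr1
    change r • s • z ∉ Dr G q
    rw [smul_smul]
    exact hz _ (mul_nonneg hr0 hs.1) (mul_le_one₀ hr1 hs.1 hs.2)
  refine ⟨O₁, O₂, hc1, hc2, ?_, ?_⟩
  · intro v hv
    have hD : q v ∈ Dr G q := ⟨v, v, Or.inl rfl, left_mem_segment _ _ _⟩
    rcases hv with hv | hv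
    · have := hv.2 1 le_rfl
      rw [one_smul] at this
      exact this hD
    · have := hv 1 zero_le_one le_rfl
      rw [one_smul] at this
      exact this hD
  · intro u v huv
    constructor
    · intro hadj
      rw [Set.disjoint_left]
      intro z hz hO
      have hD : z ∈ Dr G q := ⟨u, v, Or.inr hadj, hz⟩
      rcases hO with hO | hO
      · have := hO.2 1 le_rfl
        rw [one_smul] at this
        exact this hD
      · have := hO 1 zero_le_one le_rfl
        rw [one_smul] at this
        exact this hD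
    · intro hdis
      by_contra hnadj
      obtain ⟨m, hm, hm'⟩ := H u v huv hnadj
      refine Set.disjoint_left.1 hdis hm ?_
      rcases hm' with hI | ⟨h0, hE⟩
      · right
        rintro s hs0 hs1 ⟨a, b, hab, hz⟩
        rcases hOr a b hab with h | h
        · exact hI a b hab h s hs0 hs1 hz
        · have hba : b = a ∨ G.Adj b a := hab.imp (fun h => h.symm) (fun h => h.symm)
          exact (hI b a hba h).symm s hs0 hs1 hz
      · left
        refine ⟨h0, ?_⟩
        rintro s hs1 ⟨a, b, hab, hz⟩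
        rcases hOr a b hab with h | h
        · exact hE a b hab h s hs1 hz
        · have hba : b = a ∨ G.Adj b a := hab.imp (fun h => h.symm) (fun h => h.symm)
          exact (hE b a hba h).symm s hs1 hz

end Pool.Agent.Helper1.Cyc
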